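import Pool.Agent.Lib.MP_a2f1b8_an.Profile

/-!
Primitives along the fibres of the projection from the flex.
-/

open Set Filter Topology MeasureTheory Complex
open scoped Real

namespace Pool.Agent.Lib.MP_a2f1b8_an

/-- The one-variable entire functions used in the construction. -/
structure Prof where
  h : ℂ → ℂ
  h' : ℂ → ℂ
  ρ : ℂ → ℂ
  ρt : ℂ → ℂ
  h2 : ℂ → ℂ
  Ch : ℂ → ℂ
  Sh : ℂ → ℂ
  hh : ∀ n, HasDerivAt h (h' n) n
  dρ : Differentiable ℂ ρ
  dρt : Differentiable ℂ ρt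
  dh2 : Differentiable ℂ h2
  dCh : Differentiable ℂ Ch
  dSh : Differentiable ℂ Sh
  ρ_eq : ∀ n, ρ n = n * ρt (n ^ 2)
  h2_eq : ∀ n, h n ^ 2 = h2 (n ^ 2)
  Ch_eq : ∀ x, cosh x = Ch (x ^ 2)
  Sh_eq : ∀ x, sinh x = x * Sh (x ^ 2)
  Sh_zero : Sh 0 = 1
  unit : ∀ n, n * h n - (1 - n ^ 2) * h' n + ρ n ≠ 0
  int_ne : (∫ t in (-1 : ℝ)..1, ρ t * h t) ≠ 0

theorem nonempty_prof : Nonempty Prof := by
  obtain ⟨h, h', ρ, hh, dρ, hodd, ρodd, unit, int_ne⟩ := exists_profile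
  have dh : Differentiable ℂ h := fun n => (hh n).differentiableAt
  obtain ⟨ρt, dρt, -, ρ_eq⟩ := exists_sq_of_odd dρ ρodd
  obtain ⟨h2, dh2, h2_eq⟩ := exists_sq_of_even (φ := fun n => h n ^ 2) (dh.pow 2)
    (fun n => by simp only [hodd]; ring)
  obtain ⟨Ch, dCh, Ch_eq⟩ := exists_sq_of_even differentiable_cosh cosh_neg
  obtain ⟨Sh, dSh, Sh0, Sh_eq⟩ := exists_sq_of_odd differentiable_sinh sinh_neg
  exact ⟨⟨h, h', ρ, ρt, h2, Ch, Sh, hh, dρ, dρt, dh2, dCh, dSh, ρ_eq, h2_eq, Ch_eq, Sh_eq,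
    by simpa using Sh0, unit, int_ne⟩⟩

theorem differentiableAt_prim2 {E : Type} [NormedAddCommGroup E] [NormedSpace ℂ E]
    {Ψ : ℂ → ℂ → ℂ → ℂ} (hΨ : Differentiable ℂ fun p : (ℂ × ℂ) × ℂ => Ψ p.1.1 p.1.2 p.2)
    {a b v : E → ℂ} {w : E} (ha : DifferentiableAt ℂ a w) (hb : DifferentiableAt ℂ b w)
    (hv : DifferentiableAt ℂ v w) :
    DifferentiableAt ℂ (fun w => prim (Ψ (a w) (b w)) (v w)) w := by
  have h1 := differentiable_prim (E := ℂ × ℂ) (Ψ := fun p => Ψ p.1 p.2) hΨ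
  exact (h1 ((a w, b w), v w)).comp w ((ha.prodMk hb).prodMk hv)

namespace Prof

variable (D : Prof)

theorem dh : Differentiable ℂ D.h := fun n => (D.hh n).differentiableAt

/-- The even part, as a function of `a` and of `n ^ 2`. -/
noncomputable def Wt (a M : ℂ) : ℂ := D.ρt M * D.Ch (a ^ 2 * D.h2 M)

/-- The odd part, as a function of `a ^ 2` and of `n`. -/
noncomputable def W (A n : ℂ) : ℂ := D.ρ n * D.h n * D.Sh (A * D.h n ^ 2)

/-- First primitive. -/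
noncomputable def PA (c _d : ℂ) (t : ℂ) : ℂ := exp (c * t)

/-- Second primitive. -/
noncomputable def PB (c d : ℂ) (t : ℂ) : ℂ := D.Wt (c * t) (1 + d * t ^ 2)

/-- Third primitive. -/
noncomputable def PC (n₀ k b : ℂ) (t : ℂ) : ℂ := D.W (k * t * (b * t + n₀)) (n₀ + 2 * b * t)

theorem dPA : Differentiable ℂ fun p : (ℂ × ℂ) × ℂ => PA p.1.1 p.1.2 p.2 := by
  unfold PA
  fun_prop

theorem dPB : Differentiable ℂ fun p : (ℂ × ℂ) × ℂ => D.PB p.1.1 p.1.2 p.2 := by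
  have := D.dρt
  have := D.dCh
  have := D.dh2
  unfold PB Wt
  fun_prop

theorem dPC (n₀ : ℂ) : Differentiable ℂ fun p : (ℂ × ℂ) × ℂ => D.PC n₀ p.1.1 p.1.2 p.2 := by
  have := D.dρ
  have := D.dSh
  have := D.dh
  unfold PC W
  fun_prop

theorem dPA' (c d : ℂ) : Differentiable ℂ (PA c d) := by
  unfold PA
  fun_prop

theorem dPB' (c d : ℂ) : Differentiable ℂ (D.PB c d) := by
  have := D.dρt
  have := D.dCh
  have := D.dh2
  unfold PB Wt
  fun_prop

theorem dPC' (n₀ k b : ℂ) : Differentiable ℂ (D.PC n₀ k b) := by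
  have := D.dρ
  have := D.dSh
  have := D.dh
  unfold PC W
  fun_prop

/-- The part of the primitive defined on the whole complement of the cubic. -/
noncomputable def H0 (ε x z m y : ℂ) : ℂ :=
  prim (PA (ε * m) 0) (y / (y ^ 2 * z - x * m) * D.h ((y ^ 2 * z + x * m) / (y ^ 2 * z - x * m))) +
    prim (D.PB (ε * m) (4 * x * m * z)) (y / (y ^ 2 * z - x * m))

/-- The last part of the primitive on `z ≠ 0`. -/
noncomputable def Cp (ε x z m y : ℂ) : ℂ :=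
  ε * m / (2 * z) * prim (D.PC 1 (ε ^ 2 * m ^ 2 / z) (x * m)) (1 / (y ^ 2 * z - x * m))

/-- The last part of the primitive on `x ≠ 0`. -/
noncomputable def Cm (ε x z m y : ℂ) : ℂ :=
  ε / (2 * x) * prim (D.PC (-1) (ε ^ 2 * m / x) z) (y ^ 2 / (y ^ 2 * z - x * m))

/-- The jump function. -/
noncomputable def K (μ : ℂ) : ℂ := prim (fun t => D.W (μ * (1 - (t - 1) ^ 2)) (t - 1)) 2

theorem dK : Differentiable ℂ D.K := by
  have := D.dρ
  have := D.dSh
  have := D.dh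
  have h1 : Differentiable ℂ fun p : ℂ × ℂ => D.W (p.1 * (1 - (p.2 - 1) ^ 2)) (p.2 - 1) := by
    unfold W
    fun_prop
  have h2 := differentiable_prim (E := ℂ)
    (Ψ := fun μ t => D.W (μ * (1 - (t - 1) ^ 2)) (t - 1)) h1
  intro μ
  have h3 : DifferentiableAt ℂ (fun μ : ℂ => ((μ, 2) : ℂ × ℂ)) μ := by fun_prop
  exact (h2 (μ, 2)).comp μ h3

theorem K_eq {μ : ℂ} {G : ℂ → ℂ} (hG : ∀ n, HasDerivAt G (D.W (μ * (1 - n ^ 2)) n) n) :
    D.K μ = G 1 - G (-1) := by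
  have := D.dρ
  have := D.dSh
  have := D.dh
  have h1 : Differentiable ℂ fun t : ℂ => D.W (μ * (1 - (t - 1) ^ 2)) (t - 1) := by
    unfold W
    fun_prop
  have h2 : ∀ t, HasDerivAt (fun t => G (t - 1)) (D.W (μ * (1 - (t - 1) ^ 2)) (t - 1)) t :=
    fun t => (hG (t - 1)).comp_sub_const t 1
  rw [K, prim_eq_sub h1.continuous h2]
  norm_num

theorem exists_G (μ : ℂ) : ∃ G : ℂ → ℂ, ∀ n, HasDerivAt G (D.W (μ * (1 - n ^ 2)) n) n := by
  have := D.dρ
  have := D.dSh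
  have := D.dh
  have h1 : Differentiable ℂ fun n : ℂ => D.W (μ * (1 - n ^ 2)) n := by
    unfold W
    fun_prop
  exact ⟨_, hasDerivAt_prim h1⟩

theorem K_zero : D.K 0 ≠ 0 := by
  obtain ⟨G, hG⟩ := D.exists_G 0
  rw [D.K_eq hG]
  have h1 : ∀ n, HasDerivAt G (D.ρ n * D.h n) n := fun n => by
    simpa [W, D.Sh_zero] using hG n
  have c1 := D.dρ.continuous
  have c2 := D.dh.continuous
  have h2 := intervalIntegral.integral_eq_sub_of_hasDerivAt (a := -1) (b := 1)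
    (fun t _ => (h1 t).comp_ofReal) (Continuous.intervalIntegrable (by fun_prop) _ _)
  have h3 := D.int_ne
  rw [h2] at h3
  simpa using h3

theorem two_mul_prim_PC {μ : ℂ} {G : ℂ → ℂ} (hG : ∀ n, HasDerivAt G (D.W (μ * (1 - n ^ 2)) n) n)
    {n₀ k b : ℂ} (hn : n₀ ^ 2 = 1) (hk : k = -4 * μ * b) (τ : ℂ) :
    2 * b * prim (D.PC n₀ k b) τ = G (n₀ + 2 * b * τ) - G n₀ := by
  have h1 : ∀ t, HasDerivAt (fun t => G (n₀ + 2 * b * t)) (2 * b * D.PC n₀ k b t) t := fun t => by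
    have h2 : HasDerivAt (fun t : ℂ => n₀ + 2 * b * t) (2 * b * 1) t :=
      ((hasDerivAt_id t).const_mul (2 * b)).const_add n₀
    have h3 := (hG (n₀ + 2 * b * t)).comp t h2
    refine h3.congr_deriv ?_
    have : μ * (1 - (n₀ + 2 * b * t) ^ 2) = k * t * (b * t + n₀) := by
      rw [hk]
      linear_combination (-μ) * hn
    rw [this, PC]
    ring
  have h4 := prim_eq_sub ((D.dPC' n₀ k b).continuous.const_mul (2 * b)) h1 τ
  rw [mul_zero, add_zero] at h4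
  rw [← h4]
  unfold prim
  rw [← intervalIntegral.integral_const_mul]
  refine intervalIntegral.integral_congr fun σ _ => ?_
  simp only
  ring

theorem Cp_sub_Cm {ε x z m y : ℂ} (hx : x ≠ 0) (hz : z ≠ 0) (hP : y ^ 2 * z - x * m ≠ 0) :
    D.Cp ε x z m y - D.Cm ε x z m y = -(ε / (4 * x * z)) * D.K (-(ε ^ 2 * m / (4 * x * z))) := by
  obtain ⟨G, hG⟩ := D.exists_G (-(ε ^ 2 * m / (4 * x * z)))
  have h1 := D.two_mul_prim_PC hG (n₀ := 1) (k := ε ^ 2 * m ^ 2 / z) (b := x * m) (by norm_num)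
    (by field_simp) (1 / (y ^ 2 * z - x * m))
  have h2 := D.two_mul_prim_PC hG (n₀ := -1) (k := ε ^ 2 * m / x) (b := z) (by norm_num)
    (by field_simp) (y ^ 2 / (y ^ 2 * z - x * m))
  have h3 : 1 + 2 * (x * m) * (1 / (y ^ 2 * z - x * m)) =
      -1 + 2 * z * (y ^ 2 / (y ^ 2 * z - x * m)) := by
    field_simp
    ring
  rw [h3] at h1
  rw [D.K_eq hG, Cp, Cm]
  have e1 : ε * m / (2 * z) = ε / (4 * x * z) * (2 * (x * m)) := by field_simp; ring
  have e2 : ε / (2 * x) = ε / (4 * x * z) * (2 * z) := by field_simp; ring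
  rw [e1, e2]
  linear_combination (ε / (4 * x * z)) * h1 - (ε / (4 * x * z)) * h2

/-- The nowhere vanishing fibre derivative. -/
noncomputable def U (ε x z m y : ℂ) : ℂ :=
  ((y ^ 2 * z + x * m) / (y ^ 2 * z - x * m) * D.h ((y ^ 2 * z + x * m) / (y ^ 2 * z - x * m)) -
      (1 - ((y ^ 2 * z + x * m) / (y ^ 2 * z - x * m)) ^ 2) *
        D.h' ((y ^ 2 * z + x * m) / (y ^ 2 * z - x * m)) +
      D.ρ ((y ^ 2 * z + x * m) / (y ^ 2 * z - x * m))) *
    exp (ε * m * (y / (y ^ 2 * z - x * m) * D.h ((y ^ 2 * z + x * m) / (y ^ 2 * z - x * m))))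

theorem U_ne (ε x z m y : ℂ) : D.U ε x z m y ≠ 0 := mul_ne_zero (D.unit _) (exp_ne_zero _)

theorem hasDerivAt_P (x z m y : ℂ) :
    HasDerivAt (fun y : ℂ => y ^ 2 * z - x * m) (2 * y * z) y := by
  simpa using ((hasDerivAt_pow 2 y).mul_const z).sub_const (x * m)

theorem hasDerivAt_H0 (ε : ℂ) {x z m y : ℂ} (hP : y ^ 2 * z - x * m ≠ 0) :
    HasDerivAt (D.H0 ε x z m)
      (-(D.U ε x z m y - D.ρ ((y ^ 2 * z + x * m) / (y ^ 2 * z - x * m)) *
        sinh (ε * m * (y / (y ^ 2 * z - x * m) *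
          D.h ((y ^ 2 * z + x * m) / (y ^ 2 * z - x * m))))) / (y ^ 2 * z - x * m)) y := by
  have hPd := hasDerivAt_P x z m y
  have hv : HasDerivAt (fun y : ℂ => y / (y ^ 2 * z - x * m))
      (-((y ^ 2 * z + x * m) / (y ^ 2 * z - x * m)) / (y ^ 2 * z - x * m)) y := by
    refine ((hasDerivAt_id y).div hPd hP).congr_deriv ?_
    simp only [id]
    field_simp
    ring
  have hn : HasDerivAt (fun y : ℂ => (y ^ 2 * z + x * m) / (y ^ 2 * z - x * m))
      (-(4 * x * m * y * z) / (y ^ 2 * z - x * m) ^ 2) y := by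
    have h1 : HasDerivAt (fun y : ℂ => y ^ 2 * z + x * m) (2 * y * z) y := by
      simpa using ((hasDerivAt_pow 2 y).mul_const z).add_const (x * m)
    refine (h1.div hPd hP).congr_deriv ?_
    field_simp
    ring
  have hζ := hv.mul ((D.hh _).comp y hn)
  have hA := (hasDerivAt_prim (dPA' (ε * m) 0) _).comp y hζ
  have hB := (hasDerivAt_prim (D.dPB' (ε * m) (4 * x * m * z)) _).comp y hv
  refine (hA.add hB).congr_deriv ?_
  have hM : 1 + 4 * x * m * z * (y / (y ^ 2 * z - x * m)) ^ 2 =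
      ((y ^ 2 * z + x * m) / (y ^ 2 * z - x * m)) ^ 2 := by
    generalize hPe : y ^ 2 * z - x * m = P at hP ⊢
    field_simp
    rw [← hPe]
    ring
  have hn' : y / (y ^ 2 * z - x * m) * (-(4 * x * m * y * z) / (y ^ 2 * z - x * m) ^ 2) =
      (1 - ((y ^ 2 * z + x * m) / (y ^ 2 * z - x * m)) ^ 2) / (y ^ 2 * z - x * m) := by
    field_simp
    ring
  simp only [Function.comp_apply, Pi.mul_apply, PA, PB, Wt, U, hM]
  rw [← D.h2_eq]
  generalize (y ^ 2 * z + x * m) / (y ^ 2 * z - x * m) = n at *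
  generalize y / (y ^ 2 * z - x * m) = v at *
  have hc := D.Ch_eq (ε * m * (v * D.h n))
  have hc' : (ε * m * (v * D.h n)) ^ 2 = (ε * m * v) ^ 2 * D.h n ^ 2 := by ring
  rw [hc'] at hc
  rw [← hc, ← cosh_add_sinh, D.ρ_eq n]
  linear_combination (cosh (ε * m * (v * D.h n)) + sinh (ε * m * (v * D.h n))) * D.h' n * hn'

theorem sinh_eq (a n : ℂ) : D.ρ n * sinh (a * D.h n) = a * D.W (a ^ 2) n := by
  rw [D.Sh_eq, W, mul_pow]
  ring

theorem hasDerivAt_Hp (ε : ℂ) {x z m y : ℂ} (hz : z ≠ 0) (hP : y ^ 2 * z - x * m ≠ 0) :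
    HasDerivAt (fun y => D.H0 ε x z m y + D.Cp ε x z m y)
      (-D.U ε x z m y / (y ^ 2 * z - x * m)) y := by
  have hPd := hasDerivAt_P x z m y
  have hp := (hasDerivAt_const y (1 : ℂ)).div hPd hP
  have hC := ((hasDerivAt_prim (D.dPC' 1 (ε ^ 2 * m ^ 2 / z) (x * m)) _).comp y hp).const_mul
    (ε * m / (2 * z))
  refine ((D.hasDerivAt_H0 ε hP).add hC).congr_deriv ?_
  have e1 : ε ^ 2 * m ^ 2 / z * (1 / (y ^ 2 * z - x * m)) *
      (x * m * (1 / (y ^ 2 * z - x * m)) + 1) = (ε * m * (y / (y ^ 2 * z - x * m))) ^ 2 := by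
    generalize hPe : y ^ 2 * z - x * m = P at hP ⊢
    field_simp
    rw [← hPe]
    ring
  have e2 : 1 + 2 * (x * m) * (1 / (y ^ 2 * z - x * m)) =
      (y ^ 2 * z + x * m) / (y ^ 2 * z - x * m) := by
    field_simp
    ring
  simp only [Pi.div_apply, PC, e1, e2]
  rw [← mul_assoc (ε * m), D.sinh_eq]
  generalize D.W _ _ = ω
  generalize D.U ε x z m y = u
  generalize y ^ 2 * z - x * m = P at hP ⊢
  field_simp
  ring

theorem hasDerivAt_Hm (ε : ℂ) {x z m y : ℂ} (hx : x ≠ 0) (hP : y ^ 2 * z - x * m ≠ 0) :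
    HasDerivAt (fun y => D.H0 ε x z m y + D.Cm ε x z m y)
      (-D.U ε x z m y / (y ^ 2 * z - x * m)) y := by
  have hPd := hasDerivAt_P x z m y
  have hq := (hasDerivAt_pow 2 y).div hPd hP
  have hC := ((hasDerivAt_prim (D.dPC' (-1) (ε ^ 2 * m / x) z) _).comp y hq).const_mul
    (ε / (2 * x))
  refine ((D.hasDerivAt_H0 ε hP).add hC).congr_deriv ?_
  have e1 : ε ^ 2 * m / x * (y ^ 2 / (y ^ 2 * z - x * m)) *
      (z * (y ^ 2 / (y ^ 2 * z - x * m)) + -1) = (ε * m * (y / (y ^ 2 * z - x * m))) ^ 2 := by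
    generalize hPe : y ^ 2 * z - x * m = P at hP ⊢
    field_simp
    rw [← hPe]
    ring
  have e2 : -1 + 2 * z * (y ^ 2 / (y ^ 2 * z - x * m)) =
      (y ^ 2 * z + x * m) / (y ^ 2 * z - x * m) := by
    generalize hPe : y ^ 2 * z - x * m = P at hP ⊢
    field_simp
    rw [← hPe]
    ring
  simp only [Pi.div_apply, PC, e1, e2]
  rw [← mul_assoc (ε * m), D.sinh_eq]
  generalize D.W _ _ = ω
  generalize D.U ε x z m y = u
  generalize hPe : y ^ 2 * z - x * m = P at hP ⊢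
  norm_num
  field_simp
  rw [← hPe]
  ring

theorem H0_smul (ε : ℂ) {c x z m y : ℂ} (hc : c ≠ 0) (hP : y ^ 2 * z - x * m ≠ 0) :
    D.H0 ε (c * x) (c * z) (c ^ 2 * m) (c * y) = (c ^ 2)⁻¹ * D.H0 ε x z m y := by
  have e0 : (c * y) ^ 2 * (c * z) - c * x * (c ^ 2 * m) = c ^ 3 * (y ^ 2 * z - x * m) := by ring
  have e1 : ((c * y) ^ 2 * (c * z) + c * x * (c ^ 2 * m)) / (c ^ 3 * (y ^ 2 * z - x * m)) =
      (y ^ 2 * z + x * m) / (y ^ 2 * z - x * m) := by field_simp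
  have e2 : c * y / (c ^ 3 * (y ^ 2 * z - x * m)) = (c ^ 2)⁻¹ * (y / (y ^ 2 * z - x * m)) := by
    field_simp
  rw [H0, H0, e0, e1, e2, mul_assoc (c ^ 2)⁻¹, mul_add,
    prim_scale (Ψ := PA (ε * m) 0) (k := (c ^ 2)⁻¹),
    prim_scale (Ψ := D.PB (ε * m) (4 * x * m * z)) (k := (c ^ 2)⁻¹)]
  · intro t
    simp only [PB]
    congr 1 <;> field_simp
  · intro t
    simp only [PA]
    congr 1
    field_simp

theorem Cp_smul (ε : ℂ) {c x z m y : ℂ} (hc : c ≠ 0) (hz : z ≠ 0)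
    (hP : y ^ 2 * z - x * m ≠ 0) :
    D.Cp ε (c * x) (c * z) (c ^ 2 * m) (c * y) = (c ^ 2)⁻¹ * D.Cp ε x z m y := by
  have e0 : (c * y) ^ 2 * (c * z) - c * x * (c ^ 2 * m) = c ^ 3 * (y ^ 2 * z - x * m) := by ring
  have e2 : 1 / (c ^ 3 * (y ^ 2 * z - x * m)) = (c ^ 3)⁻¹ * (1 / (y ^ 2 * z - x * m)) := by
    field_simp
  rw [Cp, Cp, e0, e2, prim_scale (Ψ := D.PC 1 (ε ^ 2 * m ^ 2 / z) (x * m))]
  · field_simp
  · intro t
    simp only [PC]
    congr 1 <;> field_simp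

theorem Cm_smul (ε : ℂ) {c x z m y : ℂ} (hc : c ≠ 0) (hx : x ≠ 0)
    (hP : y ^ 2 * z - x * m ≠ 0) :
    D.Cm ε (c * x) (c * z) (c ^ 2 * m) (c * y) = (c ^ 2)⁻¹ * D.Cm ε x z m y := by
  have e0 : (c * y) ^ 2 * (c * z) - c * x * (c ^ 2 * m) = c ^ 3 * (y ^ 2 * z - x * m) := by ring
  have e2 : (c * y) ^ 2 / (c ^ 3 * (y ^ 2 * z - x * m)) =
      c⁻¹ * (y ^ 2 / (y ^ 2 * z - x * m)) := by
    field_simp
  rw [Cm, Cm, e0, e2, prim_scale (Ψ := D.PC (-1) (ε ^ 2 * m / x) z)]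
  · field_simp
  · intro t
    simp only [PC]
    congr 1 <;> field_simp

section Diff

variable {E : Type} [NormedAddCommGroup E] [NormedSpace ℂ E] {x z m y : E → ℂ} {w : E}

theorem differentiableAt_H0 (ε : ℂ) (hx : DifferentiableAt ℂ x w) (hz : DifferentiableAt ℂ z w)
    (hm : DifferentiableAt ℂ m w) (hy : DifferentiableAt ℂ y w)
    (hP : y w ^ 2 * z w - x w * m w ≠ 0) :
    DifferentiableAt ℂ (fun w => D.H0 ε (x w) (z w) (m w) (y w)) w := by
  have := D.dh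
  unfold H0
  refine DifferentiableAt.add ?_ ?_
  · exact differentiableAt_prim2 (Ψ := PA) (b := fun _ => 0) dPA (by fun_prop) (by fun_prop)
      (by fun_prop (disch := assumption))
  · exact differentiableAt_prim2 D.dPB (by fun_prop) (by fun_prop)
      (by fun_prop (disch := assumption))

theorem differentiableAt_Cp (ε : ℂ) (hx : DifferentiableAt ℂ x w) (hz : DifferentiableAt ℂ z w)
    (hm : DifferentiableAt ℂ m w) (hy : DifferentiableAt ℂ y w) (hz0 : z w ≠ 0)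
    (hP : y w ^ 2 * z w - x w * m w ≠ 0) :
    DifferentiableAt ℂ (fun w => D.Cp ε (x w) (z w) (m w) (y w)) w := by
  have h2 : 2 * z w ≠ 0 := mul_ne_zero two_ne_zero hz0
  unfold Cp
  refine DifferentiableAt.mul (by fun_prop (disch := assumption)) ?_
  exact differentiableAt_prim2 (D.dPC 1) (by fun_prop (disch := assumption)) (by fun_prop)
      (by fun_prop (disch := assumption))

theorem differentiableAt_Cm (ε : ℂ) (hx : DifferentiableAt ℂ x w) (hz : DifferentiableAt ℂ z w)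
    (hm : DifferentiableAt ℂ m w) (hy : DifferentiableAt ℂ y w) (hx0 : x w ≠ 0)
    (hP : y w ^ 2 * z w - x w * m w ≠ 0) :
    DifferentiableAt ℂ (fun w => D.Cm ε (x w) (z w) (m w) (y w)) w := by
  have h2 : 2 * x w ≠ 0 := mul_ne_zero two_ne_zero hx0
  unfold Cm
  refine DifferentiableAt.mul (by fun_prop (disch := assumption)) ?_
  exact differentiableAt_prim2 (D.dPC (-1)) (by fun_prop (disch := assumption)) (by fun_prop)
      (by fun_prop (disch := assumption))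

end Diff

end Prof

end Pool.Agent.Lib.MP_a2f1b8_an
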