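import Mathlib

/-!
Every smooth plane cubic has a flex, and hence a Weierstrass form.
-/

open MvPolynomial

namespace Pool.Agent.Lib.MP_a2f1b8_an

theorem exists_common_zero (P Q : MvPolynomial (Fin 3) ℂ) (hP : eval 0 P = 0)
    (hQ : eval 0 Q = 0) : ∃ z : Fin 3 → ℂ, z ≠ 0 ∧ eval z P = 0 ∧ eval z Q = 0 := by
  classical
  by_contra hcon
  push Not at hcon
  have hz : zeroLocus ℂ (Ideal.span ((({P, Q} : Finset (MvPolynomial (Fin 3) ℂ))) :
      Set (MvPolynomial (Fin 3) ℂ))) = {0} := by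
    rw [zeroLocus_span]
    ext z
    simp only [Finset.coe_insert, Finset.coe_singleton, Set.mem_insert_iff, Set.mem_singleton_iff,
      forall_eq_or_imp, forall_eq, Set.mem_ofPred_eq, coe_aeval_eq_eval]
    constructor
    · rintro ⟨h1, h2⟩
      by_contra h0
      exact hcon z h0 h1 h2
    · rintro rfl
      exact ⟨hP, hQ⟩
  have hrad := vanishingIdeal_zeroLocus_eq_radical (K := ℂ)
    (Ideal.span ((({P, Q} : Finset (MvPolynomial (Fin 3) ℂ))) : Set (MvPolynomial (Fin 3) ℂ)))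
  rw [hz] at hrad
  have hmin : vanishingIdeal ℂ ({0} : Set (Fin 3 → ℂ)) ∈ (Ideal.span
      ((({P, Q} : Finset (MvPolynomial (Fin 3) ℂ))) :
        Set (MvPolynomial (Fin 3) ℂ))).minimalPrimes := by
    rw [← Ideal.radical_minimalPrimes, ← hrad, Ideal.minimalPrimes_eq_subsingleton_self]
    rfl
  have hle := Ideal.height_le_card_of_mem_minimalPrimes_span_finset hmin
  have hcard : ((({P, Q} : Finset (MvPolynomial (Fin 3) ℂ)).card : ℕ) : ℕ∞) ≤ 2 := by
    exact_mod_cast Finset.card_le_two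
  let φ₁ : MvPolynomial (Fin 3) ℂ →ₐ[ℂ] MvPolynomial (Fin 3) ℂ := aeval ![0, X 1, X 2]
  let φ₂ : MvPolynomial (Fin 3) ℂ →ₐ[ℂ] MvPolynomial (Fin 3) ℂ := aeval ![0, 0, X 2]
  have i1 : (RingHom.ker φ₁).IsPrime := RingHom.ker_isPrime φ₁
  have i2 : (RingHom.ker φ₂).IsPrime := RingHom.ker_isPrime φ₂
  have c12 : φ₂.comp φ₁ = φ₂ := by
    refine MvPolynomial.algHom_ext fun i => ?_
    fin_cases i <;> simp [φ₁, φ₂]
  have c23 : (aeval (0 : Fin 3 → ℂ)).comp φ₂ = aeval (0 : Fin 3 → ℂ) := by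
    refine MvPolynomial.algHom_ext fun i => ?_
    fin_cases i <;> simp [φ₂]
  have l0 : (⊥ : Ideal (MvPolynomial (Fin 3) ℂ)) < RingHom.ker φ₁ := by
    refine lt_of_le_of_ne bot_le fun h => ?_
    have h1 : (X 0 : MvPolynomial (Fin 3) ℂ) ∈ RingHom.ker φ₁ := by simp [RingHom.mem_ker, φ₁]
    rw [← h, Ideal.mem_bot] at h1
    exact X_ne_zero _ h1
  have l1 : RingHom.ker φ₁ < RingHom.ker φ₂ := by
    refine lt_of_le_of_ne (fun p hp => ?_) fun h => ?_
    · rw [RingHom.mem_ker] at hp ⊢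
      rw [← c12, AlgHom.comp_apply, hp, map_zero]
    · have h1 : (X 1 : MvPolynomial (Fin 3) ℂ) ∈ RingHom.ker φ₂ := by simp [RingHom.mem_ker, φ₂]
      rw [← h] at h1
      simp [RingHom.mem_ker, φ₁] at h1
  have l2 : RingHom.ker φ₂ < vanishingIdeal ℂ ({0} : Set (Fin 3 → ℂ)) := by
    refine lt_of_le_of_ne (fun p hp => ?_) fun h => ?_
    · rw [RingHom.mem_ker] at hp
      rw [mem_vanishingIdeal_singleton_iff, ← c23, AlgHom.comp_apply, hp, map_zero]
    · have h1 : (X 2 : MvPolynomial (Fin 3) ℂ) ∈ vanishingIdeal ℂ ({0} : Set (Fin 3 → ℂ)) := by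
        simp
      rw [← h] at h1
      simp [RingHom.mem_ker, φ₂] at h1
  have h0 := Ideal.height_add_one_le_of_lt_of_isPrime l0
  have h1 := Ideal.height_add_one_le_of_lt_of_isPrime l1
  have h2 := Ideal.height_add_one_le_of_lt_of_isPrime l2
  rw [Ideal.height_bot, zero_add] at h0
  have h3 : (1 + 1 + 1 : ℕ∞) ≤ 2 :=
    calc (1 + 1 + 1 : ℕ∞) ≤ (RingHom.ker φ₁).height + 1 + 1 := by gcongr
      _ ≤ (RingHom.ker φ₂).height + 1 := by gcongr
      _ ≤ 2 := h2.trans (hle.trans hcard)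
  norm_num at h3

theorem pderiv_swap (i j : Fin 3) (p : MvPolynomial (Fin 3) ℂ) :
    pderiv i (pderiv j p) = pderiv j (pderiv i p) := by
  rcases eq_or_ne i j with rfl | h
  · rfl
  ext m
  simp only [coeff_pderiv, Finsupp.add_apply, Finsupp.single_eq_of_ne h,
    Finsupp.single_eq_of_ne h.symm, add_zero]
  rw [add_right_comm m]
  ring

theorem euler_eval {φ : MvPolynomial (Fin 3) ℂ} {n : ℕ} (h : φ.IsHomogeneous n) (v : Fin 3 → ℂ) :
    (n : ℂ) * eval v φ = ∑ i, v i * eval v (pderiv i φ) := by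
  have := congrArg (eval v) h.sum_X_mul_pderiv
  simp only [map_sum, map_mul, eval_X, nsmul_eq_mul, map_natCast] at this
  exact this.symm

theorem eval_const {φ : MvPolynomial (Fin 3) ℂ} (h : φ.IsHomogeneous 0) (v : Fin 3 → ℂ) :
    eval v φ = eval 0 φ := by
  rw [← totalDegree_zero_iff_isHomogeneous, totalDegree_eq_zero_iff_eq_C] at h
  rw [h, eval_C, eval_C]

/-- The trilinear form with coefficients `T`. -/
noncomputable def tri (T : Fin 3 → Fin 3 → Fin 3 → ℂ) :
    (Fin 3 → ℂ) →ₗ[ℂ] (Fin 3 → ℂ) →ₗ[ℂ] (Fin 3 → ℂ) →ₗ[ℂ] ℂ :=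
  ∑ i, ∑ j, ∑ k, T i j k • (LinearMap.proj (R := ℂ) (φ := fun _ : Fin 3 => ℂ) i).smulRight
    ((LinearMap.proj (R := ℂ) (φ := fun _ : Fin 3 => ℂ) j).smulRight
      (LinearMap.proj (R := ℂ) (φ := fun _ : Fin 3 => ℂ) k))

theorem tri_apply (T : Fin 3 → Fin 3 → Fin 3 → ℂ) (u v w : Fin 3 → ℂ) :
    tri T u v w = ∑ i, ∑ j, ∑ k, T i j k * (u i * (v j * w k)) := by
  simp [tri, LinearMap.sum_apply]

theorem exists_trilinear (P : MvPolynomial (Fin 3) ℂ) (hP : P.IsHomogeneous 3) :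
    ∃ B : (Fin 3 → ℂ) →ₗ[ℂ] (Fin 3 → ℂ) →ₗ[ℂ] (Fin 3 → ℂ) →ₗ[ℂ] ℂ,
      (∀ u v w, B u v w = B v u w) ∧ (∀ u v w, B u v w = B u w v) ∧
      (∀ v, 6 * eval v P = B v v v) ∧
      (∀ v i, 2 * eval v (pderiv i P) = B v v (Pi.single i 1)) ∧
      ∃ p : Fin 3 → ℂ, p ≠ 0 ∧ eval p P = 0 ∧ ∃ v : Fin 3 → ℂ, v ≠ 0 ∧ ∀ w, B p v w = 0 := by
  have h1 : ∀ i, (pderiv i P).IsHomogeneous 2 := fun i => hP.pderiv
  have h2 : ∀ i j, (pderiv j (pderiv i P)).IsHomogeneous 1 := fun i j => (h1 i).pderiv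
  have h3 : ∀ i j k, (pderiv k (pderiv j (pderiv i P))).IsHomogeneous 0 :=
    fun i j k => (h2 i j).pderiv
  obtain ⟨T, hT⟩ : ∃ T : Fin 3 → Fin 3 → Fin 3 → ℂ,
      ∀ i j k, T i j k = eval 0 (pderiv k (pderiv j (pderiv i P))) := ⟨_, fun _ _ _ => rfl⟩
  have s1 : ∀ i j k, T i j k = T j i k := fun i j k => by rw [hT, hT, pderiv_swap j i]
  have s2 : ∀ i j k, T i j k = T i k j := fun i j k => by rw [hT, hT, pderiv_swap k j]
  have e2 : ∀ v i j, eval v (pderiv j (pderiv i P)) = ∑ k, v k * T i j k := fun v i j => by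
    have := euler_eval (h2 i j) v
    rw [Nat.cast_one, one_mul] at this
    rw [this]
    exact Finset.sum_congr rfl fun k _ => by rw [eval_const (h3 i j k), hT]
  have e1 : ∀ v i, 2 * eval v (pderiv i P) = ∑ j, v j * ∑ k, v k * T i j k := fun v i => by
    have := euler_eval (h1 i) v
    rw [Nat.cast_ofNat] at this
    rw [this]
    exact Finset.sum_congr rfl fun j _ => by rw [e2]
  have e0 : ∀ v, 6 * eval v P = ∑ i, v i * ∑ j, v j * ∑ k, v k * T i j k := fun v => by
    have := euler_eval hP v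
    rw [Nat.cast_ofNat] at this
    have h6 : 6 * eval v P = 2 * (3 * eval v P) := by ring
    rw [h6, this, Finset.mul_sum]
    exact Finset.sum_congr rfl fun i _ => by rw [← e1]; ring
  have b1 : ∀ u v w, tri T u v w = tri T v u w := fun u v w => by
    rw [tri_apply, tri_apply, Finset.sum_comm]
    refine Finset.sum_congr rfl fun i _ => Finset.sum_congr rfl fun j _ =>
      Finset.sum_congr rfl fun k _ => ?_
    rw [s1 j i k]
    ring
  have b2 : ∀ u v w, tri T u v w = tri T u w v := fun u v w => by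
    rw [tri_apply, tri_apply]
    refine Finset.sum_congr rfl fun i _ => ?_
    rw [Finset.sum_comm]
    refine Finset.sum_congr rfl fun j _ => Finset.sum_congr rfl fun k _ => ?_
    rw [s2 i k j]
    ring
  refine ⟨tri T, b1, b2, fun v => ?_, fun v i => ?_, ?_⟩
  · rw [e0, tri_apply]
    simp only [Fin.sum_univ_three]
    ring
  · rw [b2, b1, e1, tri_apply]
    fin_cases i <;> simp [Fin.sum_univ_three] <;> ring
  · obtain ⟨p, hp0, hp1, hp2⟩ := exists_common_zero P
      (Matrix.det (Matrix.of fun i j => pderiv j (pderiv i P)))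
      (by have := e0 0; simpa using this)
      (by
        rw [RingHom.map_det]
        have : (eval (0 : Fin 3 → ℂ)).mapMatrix (Matrix.of fun i j => pderiv j (pderiv i P)) =
            0 := by
          ext i j
          have := e2 0 i j
          simpa using this
        rw [this, Matrix.det_zero])
    rw [RingHom.map_det] at hp2
    obtain ⟨v, hv0, hv⟩ := Matrix.exists_mulVec_eq_zero_iff.2 hp2
    refine ⟨p, hp0, hp1, v, hv0, fun w => ?_⟩
    have hv' : ∀ i, ∑ j, (∑ k, p k * T i j k) * v j = 0 := fun i => by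
      have := congrFun hv i
      simpa [Matrix.mulVec, dotProduct, e2] using this
    rw [b2, b1, b2, tri_apply]
    have a0 := hv' 0
    have a1 := hv' 1
    have a2 := hv' 2
    simp only [Fin.sum_univ_three] at a0 a1 a2 ⊢
    linear_combination w 0 * a0 + w 1 * a1 + w 2 * a2

theorem exists_cubic_root (a b c d : ℂ) (ha : a ≠ 0) :
    ∃ e : ℂ, a * e ^ 3 + b * e ^ 2 + c * e + d = 0 := by
  have h : (Polynomial.C a * Polynomial.X ^ 3 + Polynomial.C b * Polynomial.X ^ 2 +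
      Polynomial.C c * Polynomial.X + Polynomial.C d).degree ≠ 0 := by
    rw [Polynomial.degree_cubic ha]
    decide
  obtain ⟨e, he⟩ := IsAlgClosed.exists_root _ h
  exact ⟨e, by simpa using he⟩

/-- The linear map sending the standard basis to `a, b, c`. -/
noncomputable def comb (a b c : Fin 3 → ℂ) : (Fin 3 → ℂ) →ₗ[ℂ] (Fin 3 → ℂ) :=
  (LinearMap.proj (R := ℂ) (φ := fun _ : Fin 3 => ℂ) 0).smulRight a +
    (LinearMap.proj (R := ℂ) (φ := fun _ : Fin 3 => ℂ) 1).smulRight b +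
    (LinearMap.proj (R := ℂ) (φ := fun _ : Fin 3 => ℂ) 2).smulRight c

theorem comb_apply (a b c w : Fin 3 → ℂ) : comb a b c w = w 0 • a + w 1 • b + w 2 • c := by
  simp [comb]

theorem exists_normal_form (P : MvPolynomial (Fin 3) ℂ) (hP : P.IsHomogeneous 3)
    (hs : ∀ z : Fin 3 → ℂ, z ≠ 0 → eval z P = 0 → ∃ i : Fin 3, eval z (pderiv i P) ≠ 0) :
    ∃ (A : (Fin 3 → ℂ) ≃L[ℂ] (Fin 3 → ℂ)) (α β c : ℂ), c ≠ 0 ∧ ∀ w : Fin 3 → ℂ,
      eval (A w) P = c * (w 1 ^ 2 * w 2 - w 0 * (w 0 ^ 2 + α * w 0 * w 2 + β * w 2 ^ 2)) := by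
  obtain ⟨B, s12, s23, e0, e1, p, hp0, hp1, v, hv0, hv⟩ := exists_trilinear P hP
  have expand : ∀ (a b c : Fin 3 → ℂ) (x y z : ℂ),
      B (x • a + y • b + z • c) (x • a + y • b + z • c) (x • a + y • b + z • c) =
        x ^ 3 * B a a a + y ^ 3 * B b b b + z ^ 3 * B c c c + 3 * x ^ 2 * y * B a a b +
        3 * x ^ 2 * z * B a a c + 3 * x * y ^ 2 * B a b b + 3 * y ^ 2 * z * B b b c +
        3 * x * z ^ 2 * B a c c + 3 * y * z ^ 2 * B b c c + 6 * x * y * z * B a b c := by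
    intro a b c x y z
    simp only [map_add, map_smul, LinearMap.add_apply, LinearMap.smul_apply, smul_eq_mul]
    simp only [s12 b a, s12 c a, s12 c b, s23 _ b a, s23 _ c a, s23 _ c b]
    ring
  have ppp : B p p p = 0 := by rw [← e0, hp1, mul_zero]
  have vp : ∀ w, B v p w = 0 := fun w => by rw [s12, hv]
  have pwv : ∀ w, B p w v = 0 := fun w => by rw [s23, hv]
  have vvp : B v v p = 0 := by rw [s23, vp]
  obtain ⟨i, hi⟩ := hs p hp0 hp1
  obtain ⟨u₀, hu₀⟩ : ∃ u₀, B p p u₀ ≠ 0 :=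
    ⟨Pi.single i 1, by rw [← e1]; exact mul_ne_zero two_ne_zero hi⟩
  have inj : ∀ u, B p p u ≠ 0 → Function.Injective (comb v p u) := by
    intro u hu
    rw [injective_iff_map_eq_zero]
    intro w hw
    rw [comb_apply] at hw
    have h2 : w 2 = 0 := by
      have := congrArg (B p p) hw
      simp only [map_add, map_smul, smul_eq_mul, map_zero, ppp, pwv, mul_zero, zero_add] at this
      exact (mul_eq_zero.1 this).resolve_right hu
    rw [h2, zero_smul, add_zero] at hw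
    have h1 : w 1 = 0 := by
      have := congrArg (fun t => B p t u) hw
      simp only [map_add, map_smul, smul_eq_mul, map_zero, LinearMap.add_apply,
        LinearMap.smul_apply, hv, mul_zero, zero_add, LinearMap.zero_apply] at this
      exact (mul_eq_zero.1 this).resolve_right hu
    rw [h1, zero_smul, add_zero] at hw
    have h0 : w 0 = 0 := (smul_eq_zero.1 hw).resolve_right hv0
    funext j
    fin_cases j
    · exact h0
    · exact h1
    · exact h2
  have vvv : B v v v ≠ 0 := by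
    intro h
    obtain ⟨a, ha⟩ := IsAlgClosed.exists_pow_nat_eq (-B v v u₀ / B p p u₀) (n := 2) two_pos
    have ha' : a ^ 2 * B p p u₀ + B v v u₀ = 0 := by
      rw [ha]
      field_simp
      ring
    have hq0 : a • p + v ≠ 0 := by
      intro hq
      have h1 : comb v p u₀ ![1, a, 0] = comb v p u₀ 0 := by
        rw [comb_apply, map_zero, ← hq]
        simp [add_comm]
      have h2 := congrFun (inj u₀ hu₀ h1) 0
      simp at h2
    have hq : ∀ w, B (a • p + v) (a • p + v) w = 0 := by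
      intro w
      obtain ⟨t, rfl⟩ := LinearMap.injective_iff_surjective.1 (inj u₀ hu₀) w
      rw [comb_apply]
      simp only [map_add, map_smul, smul_eq_mul, LinearMap.add_apply, LinearMap.smul_apply,
        ppp, pwv, hv, vp, vvp, h]
      linear_combination t 2 * ha'
    have hq1 : eval (a • p + v) P = 0 := by
      have := e0 (a • p + v)
      rw [hq] at this
      exact (mul_eq_zero.1 this).resolve_left (by norm_num)
    obtain ⟨j, hj⟩ := hs _ hq0 hq1
    have := e1 (a • p + v) j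
    rw [hq] at this
    exact hj ((mul_eq_zero.1 this).resolve_left two_ne_zero)
  obtain ⟨u₁, h1a, h1b⟩ : ∃ u₁, B p p u₁ = B p p u₀ ∧ B p u₁ u₁ = 0 := by
    refine ⟨u₀ + (-B p u₀ u₀ / (2 * B p p u₀)) • p, ?_, ?_⟩
    · simp only [map_add, map_smul, smul_eq_mul, ppp, mul_zero, add_zero]
    · simp only [map_add, map_smul, smul_eq_mul, LinearMap.add_apply, LinearMap.smul_apply,
        ppp, s23 p u₀ p]
      field_simp
      ring
  obtain ⟨u₂, h2a, h2b, h2c⟩ : ∃ u₂, B p p u₂ = B p p u₀ ∧ B p u₂ u₂ = 0 ∧ B u₂ u₂ u₂ = 0 := by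
    obtain ⟨e, he⟩ := exists_cubic_root (B v v v) (3 * B v v u₁) (3 * B v u₁ u₁) (B u₁ u₁ u₁) vvv
    refine ⟨e • v + (0 : ℂ) • p + (1 : ℂ) • u₁, ?_, ?_, ?_⟩
    · simp only [map_add, map_smul, smul_eq_mul, pwv, h1a]
      ring
    · simp only [map_add, map_smul, smul_eq_mul, LinearMap.add_apply, LinearMap.smul_apply,
        pwv, hv, h1b]
      ring
    · rw [expand]
      linear_combination he
  obtain ⟨u, ha, hb, hc⟩ : ∃ u, 3 * B p p u = -B v v v ∧ B p u u = 0 ∧ B u u u = 0 := by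
    refine ⟨(-B v v v / (3 * B p p u₀)) • u₂, ?_, ?_, ?_⟩
    · simp only [map_smul, smul_eq_mul, h2a]
      field_simp
    · simp only [map_smul, smul_eq_mul, LinearMap.smul_apply, h2b, mul_zero]
    · simp only [map_smul, smul_eq_mul, LinearMap.smul_apply, h2c, mul_zero]
  have hu : B p p u ≠ 0 := fun h => vvv (by linear_combination ha - 3 * h)
  refine ⟨(LinearEquiv.ofInjectiveEndo (comb v p u) (inj u hu)).toContinuousLinearEquiv,
    3 * B v v u / B v v v, 3 * B v u u / B v v v, -B v v v / 6,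
    div_ne_zero (neg_ne_zero.2 vvv) (by norm_num), fun w => ?_⟩
  have h1 := e0 (comb v p u w)
  have h2 := expand v p u (w 0) (w 1) (w 2)
  rw [← comb_apply, ← h1, ppp, hc, vvp, vp, vp, hb] at h2
  change eval (comb v p u w) P = _
  field_simp
  linear_combination h2 + w 1 ^ 2 * w 2 * ha

end Pool.Agent.Lib.MP_a2f1b8_an
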