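import Pool.Agent.Lib.MP_a2f1b8_an.Holo

/-!
From a fibrewise immersion into the affine quadric to an immersion into the plane.
-/

open Set Filter Topology Complex Function
open scoped Real

namespace Pool.Agent.Lib.MP_a2f1b8_an

theorem exists_gamma : ∃ γ : ℂ → ℂ, Differentiable ℂ γ ∧
    ∀ s, γ s * (2 * s - 1) + s * (s - 1) * deriv γ s ≠ 0 := by
  have hE : Differentiable ℂ fun s : ℂ => exp (2 * π * I * s) := by fun_prop
  have hγ := differentiable_dslope (differentiable_dslope hE 0) 1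
  refine ⟨_, hγ, fun s => ?_⟩
  set γ := dslope (dslope (fun s : ℂ => exp (2 * π * I * s)) 0) 1 with hγdef
  have hid : (fun s : ℂ => s * (s - 1) * γ s) = fun s => exp (2 * π * I * s) - 1 := by
    funext s
    have h1 := sub_smul_dslope (fun s : ℂ => exp (2 * π * I * s)) 0 s
    have h2 := sub_smul_dslope (fun s : ℂ => exp (2 * π * I * s)) 0 1
    have h3 := sub_smul_dslope (dslope (fun s : ℂ => exp (2 * π * I * s)) 0) 1 s
    simp only [smul_eq_mul, mul_zero, exp_zero, mul_one, exp_two_pi_mul_I] at h1 h2 h3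
    rw [hγdef]
    linear_combination s * h3 + h1 - s * h2
  have h1 : HasDerivAt (fun s : ℂ => s * (s - 1) * γ s)
      ((1 * (s - 1) + s * 1) * γ s + s * (s - 1) * deriv γ s) s :=
    ((hasDerivAt_id s).mul ((hasDerivAt_id s).sub_const 1)).mul (hγ s).hasDerivAt
  have h2 : HasDerivAt (fun s : ℂ => exp (2 * π * I * s) - 1)
      (exp (2 * π * I * s) * (2 * π * I * 1)) s :=
    (((hasDerivAt_id s).const_mul (2 * π * I)).cexp).sub_const 1
  rw [hid] at h1
  have h3 := h1.unique h2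
  have h4 : γ s * (2 * s - 1) + s * (s - 1) * deriv γ s =
      exp (2 * π * I * s) * (2 * π * I) := by linear_combination h3
  rw [h4]
  exact mul_ne_zero (exp_ne_zero _) two_pi_I_ne_zero

theorem exists_pair {E : Type} [NormedAddCommGroup E] [NormedSpace ℂ E] {f g : E → ℂ}
    {L₀ L₁ : E →L[ℂ] ℂ} {w : E} (hf : HasFDerivAt f L₀ w) (hg : HasFDerivAt g L₁ w) (e v : E)
    (hdet : L₀ e * L₁ v - L₀ v * L₁ e ≠ 0) :
    ∃ L : E →L[ℂ] (Fin 2 → ℂ), HasFDerivAt (fun w => ![f w, g w]) L w ∧ Surjective L := by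
  refine ⟨ContinuousLinearMap.pi ![L₀, L₁], hasFDerivAt_pi.2 fun i => ?_, fun u => ?_⟩
  · fin_cases i
    · exact hf
    · exact hg
  · obtain ⟨k, hk⟩ : ∃ k : ℂ, (L₀ e * L₁ v - L₀ v * L₁ e) * k = 1 := ⟨_, mul_inv_cancel₀ hdet⟩
    refine ⟨((u 0 * L₁ v - u 1 * L₀ v) * k) • e + ((u 1 * L₀ e - u 0 * L₁ e) * k) • v, ?_⟩
    funext i
    fin_cases i
    · simp only [ContinuousLinearMap.pi_apply, Fin.zero_eta, Matrix.cons_val_zero, map_add,
        map_smul, smul_eq_mul]
      linear_combination u 0 * hk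
    · simp only [ContinuousLinearMap.pi_apply, Fin.mk_one, Matrix.cons_val_one, map_add,
        map_smul, smul_eq_mul, Matrix.cons_val_zero]
      linear_combination u 1 * hk

theorem immersion_of_ND {Ω : Set (Fin 3 → ℂ)} (hΩ : IsOpen Ω) {N D : (Fin 3 → ℂ) → ℂ}
    (hN : DifferentiableOn ℂ N Ω) (hD : DifferentiableOn ℂ D Ω)
    (hid : ∀ w ∈ Ω, w 0 * D w - w 2 * N w = 1)
    (hy : ∀ w ∈ Ω, ∃ μ : ℂ, μ ≠ 0 ∧
      HasDerivAt (fun y => N (update w 1 y)) (μ * w 0) (w 1) ∧
      HasDerivAt (fun y => D (update w 1 y)) (μ * w 2) (w 1))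
    (hhom : ∀ w ∈ Ω, ∀ c : ℂ, c ≠ 0 → N (c • w) = c⁻¹ * N w ∧ D (c • w) = c⁻¹ * D w) :
    ∃ F : (Fin 3 → ℂ) → (Fin 2 → ℂ), DifferentiableOn ℂ F Ω ∧
      (∀ w ∈ Ω, ∀ c : ℂ, c ≠ 0 → F (c • w) = F w) ∧ ∀ w ∈ Ω, Surjective (fderiv ℂ F w) := by
  obtain ⟨γ, hγ, hγne⟩ := exists_gamma
  let p0 : (Fin 3 → ℂ) →L[ℂ] ℂ := ContinuousLinearMap.proj 0
  let p2 : (Fin 3 → ℂ) →L[ℂ] ℂ := ContinuousLinearMap.proj 2
  have key : ∀ w ∈ Ω, ∃ L : (Fin 3 → ℂ) →L[ℂ] (Fin 2 → ℂ),
      HasFDerivAt (fun w => ![w 0 * N w * γ (w 0 * D w), w 2 * D w]) L w ∧ Surjective L := by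
    intro w hw
    have hNw := (hN.differentiableAt (hΩ.mem_nhds hw)).hasFDerivAt
    have hDw := (hD.differentiableAt (hΩ.mem_nhds hw)).hasFDerivAt
    set LN := fderiv ℂ N w
    set LD := fderiv ℂ D w
    have h0 : HasFDerivAt (fun w : Fin 3 → ℂ => w 0) p0 w := p0.hasFDerivAt
    have h2 : HasFDerivAt (fun w : Fin 3 → ℂ => w 2) p2 w := p2.hasFDerivAt
    have hA := h0.mul hNw
    have hs := h0.mul hDw
    have hB := h2.mul hDw
    have hC := h2.mul hNw
    have hg := (hγ (w 0 * D w)).hasDerivAt.comp_hasFDerivAt w hs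
    have hF0 := hA.mul hg
    -- the differentiated identity
    have hid' : ∀ δ : Fin 3 → ℂ, w 0 * LD δ + D w * δ 0 - (w 2 * LN δ + N w * δ 2) = 0 := by
      intro δ
      have h3 := hs.sub hC
      have h4 : HasFDerivAt (fun _ : Fin 3 → ℂ => (1 : ℂ)) (0 : (Fin 3 → ℂ) →L[ℂ] ℂ) w :=
        hasFDerivAt_const 1 w
      have h5 : ((fun w : Fin 3 → ℂ => w 0) * D - (fun w : Fin 3 → ℂ => w 2) * N) =ᶠ[𝓝 w]
          fun _ => 1 := by
        filter_upwards [hΩ.mem_nhds hw] with u hu using hid u hu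
      have h6 := h3.unique (h4.congr_of_eventuallyEq h5)
      have h7 := congrArg (fun T : (Fin 3 → ℂ) →L[ℂ] ℂ => T δ) h6
      simpa [p0, p2] using h7
    obtain ⟨μ, hμ, hyN, hyD⟩ := hy w hw
    have hup : HasDerivAt (fun y => update w 1 y) (Pi.single 1 (1 : ℂ)) (w 1) :=
      hasDerivAt_update w 1 (w 1)
    have hNy : LN (Pi.single 1 1) = μ * w 0 := by
      have h3 : HasFDerivAt N LN (update w 1 (w 1)) := by rwa [update_eq_self]
      exact (h3.comp_hasDerivAt (w 1) hup).unique hyN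
    have hDy : LD (Pi.single 1 1) = μ * w 2 := by
      have h3 : HasFDerivAt D LD (update w 1 (w 1)) := by rwa [update_eq_self]
      exact (h3.comp_hasDerivAt (w 1) hup).unique hyD
    let v : Fin 3 → ℂ := ![N w, 0, D w]
    refine exists_pair hF0 hB (Pi.single 1 1) v ?_
    have hv := hid' v
    have hw1 := hid w hw
    have hne := mul_ne_zero hμ (hγne (w 0 * D w))
    simp only [v, Matrix.cons_val_zero, Matrix.cons_val] at hv
    have e0 : p0 (Pi.single 1 1) = 0 := by simp [p0]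
    have e2 : p2 (Pi.single 1 1) = 0 := by simp [p2]
    have e0' : p0 v = N w := by simp [p0, v]
    have e2' : p2 v = D w := by simp [p2, v]
    simp only [_root_.add_apply, _root_.smul_apply, smul_eq_mul,
      Pi.mul_apply, comp_apply, hNy, hDy, e0, e2, e0', e2']
    intro h0
    apply hne
    generalize γ (w 0 * D w) = g at *
    generalize deriv γ (w 0 * D w) = g' at *
    generalize LN v = a at *
    generalize LD v = b at *
    generalize w 0 = x at *
    generalize w 2 = z at *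
    generalize N w = n at *
    generalize D w = d at *
    linear_combination h0 - (μ * g * x * z) * hv -
      μ * (g * (x * d + z * n) - g + x * d * z * n * g' - x * d * g') * hw1
  refine ⟨fun w => ![w 0 * N w * γ (w 0 * D w), w 2 * D w], fun w hw => ?_,
    fun w hw c hc => ?_, fun w hw => ?_⟩
  · obtain ⟨L, hL, -⟩ := key w hw
    exact hL.differentiableAt.differentiableWithinAt
  · obtain ⟨h1, h2⟩ := hhom w hw c hc
    have e1 : (c • w) 0 * N (c • w) = w 0 * N w := by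
      rw [h1, Pi.smul_apply, smul_eq_mul]; field_simp
    have e2 : (c • w) 0 * D (c • w) = w 0 * D w := by
      rw [h2, Pi.smul_apply, smul_eq_mul]; field_simp
    have e3 : (c • w) 2 * D (c • w) = w 2 * D w := by
      rw [h2, Pi.smul_apply, smul_eq_mul]; field_simp
    simp only [e1, e2, e3]
  · obtain ⟨L, hL, hs⟩ := key w hw
    rw [hL.fderiv]
    exact hs

end Pool.Agent.Lib.MP_a2f1b8_an
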