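import Pool.Agent.Lib.MP_a2f1b8_an.Holo

/-!
Laurent splitting of a holomorphic function on the punctured plane.
-/

open Set Filter Topology MeasureTheory Metric Complex
open scoped Real

namespace Pool.Agent.Lib.MP_a2f1b8_an

theorem circle_eq_of_le {g : ℂ → ℂ} {r R : ℝ} (hr : 0 < r) (hle : r ≤ R)
    (hg : ∀ z : ℂ, r ≤ ‖z‖ → ‖z‖ ≤ R → DifferentiableAt ℂ g z) :
    (∮ z in C(0, R), g z) = ∮ z in C(0, r), g z := by
  refine circleIntegral_eq_of_differentiable_on_annulus_off_countable hr hle countable_empty ?_ ?_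
  · intro z hz
    have h1 := hz.1
    have h2 := hz.2
    rw [mem_closedBall_zero_iff] at h1
    rw [mem_ball_zero_iff, not_lt] at h2
    exact (hg z h2 h1).continuousAt.continuousWithinAt
  · intro z hz
    have h1 := hz.1.1
    have h2 := hz.1.2
    rw [mem_ball_zero_iff] at h1
    rw [mem_closedBall_zero_iff, not_le] at h2
    exact hg z h2.le h1.le

theorem circle_eq {g : ℂ → ℂ} {r R : ℝ} (hr : 0 < r) (hR : 0 < R)
    (hg : ∀ z : ℂ, min r R ≤ ‖z‖ → ‖z‖ ≤ max r R → DifferentiableAt ℂ g z) :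
    (∮ z in C(0, R), g z) = ∮ z in C(0, r), g z := by
  rcases le_total r R with h | h
  · rw [min_eq_left h, max_eq_right h] at hg
    exact circle_eq_of_le hr h hg
  · rw [min_eq_right h, max_eq_left h] at hg
    exact (circle_eq_of_le hR h hg).symm

theorem ne_zero_of_pos_le {r : ℝ} {z : ℂ} (hr : 0 < r) (h : r ≤ ‖z‖) : z ≠ 0 := by
  rintro rfl
  rw [norm_zero] at h
  exact absurd h (not_le.2 hr)

theorem outer_part {Φ : ℂ → ℂ} (hΦ : ∀ t ≠ 0, DifferentiableAt ℂ Φ t) :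
    Differentiable ℂ fun t : ℂ => ∮ τ in C(0, ‖t‖ + 1), (τ - t)⁻¹ * Φ τ := by
  intro t₀
  have hR : 0 < ‖t₀‖ + 1 := by positivity
  have hne : ∀ {R : ℝ} {t τ : ℂ}, ‖t‖ < R → R ≤ ‖τ‖ → τ - t ≠ 0 := by
    intro R t τ h1 h2 h
    rw [sub_eq_zero] at h
    rw [h] at h2
    linarith
  have h1 : DifferentiableOn ℂ (fun t : ℂ => ∮ τ in C(0, ‖t₀‖ + 1), (τ - t)⁻¹ * Φ τ)
      (ball 0 (‖t₀‖ + 1)) := by
    refine differentiableOn_circleIntegral (Φ := fun t τ => (τ - t)⁻¹ * Φ τ) isOpen_ball hR.le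
      ?_ ?_
    · intro p hp
      have hp1 := hp.1
      have hp2 := hp.2
      rw [mem_ball_zero_iff] at hp1
      rw [mem_sphere_zero_iff_norm] at hp2
      refine ContinuousAt.continuousWithinAt (ContinuousAt.mul ?_ ?_)
      · exact ContinuousAt.inv₀ (by fun_prop) (hne hp1 hp2.ge)
      · exact ContinuousAt.comp (hΦ _ (ne_zero_of_pos_le hR hp2.ge)).continuousAt continuousAt_snd
    · intro τ hτ t ht
      rw [mem_ball_zero_iff] at ht
      rw [mem_sphere_zero_iff_norm] at hτ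
      refine DifferentiableAt.differentiableWithinAt (DifferentiableAt.mul_const ?_ _)
      exact DifferentiableAt.inv (by fun_prop) (hne ht hτ.ge)
  have h2 : ball (0 : ℂ) (‖t₀‖ + 1) ∈ 𝓝 t₀ :=
    isOpen_ball.mem_nhds (by rw [mem_ball_zero_iff]; linarith)
  refine (h1.differentiableAt h2).congr_of_eventuallyEq ?_
  filter_upwards [h2] with t ht
  rw [mem_ball_zero_iff] at ht
  refine circle_eq hR (by positivity) fun z hz _ => ?_
  have hlt : ‖t‖ < min (‖t₀‖ + 1) (‖t‖ + 1) := lt_min ht (by linarith)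
  have hpos : 0 < min (‖t₀‖ + 1) (‖t‖ + 1) := (norm_nonneg _).trans_lt hlt
  have hz1 : DifferentiableAt ℂ (fun τ : ℂ => (τ - t)⁻¹) z :=
    DifferentiableAt.inv (by fun_prop) (hne hlt hz)
  exact hz1.mul (hΦ z (ne_zero_of_pos_le hpos hz))

theorem inner_part {Φ : ℂ → ℂ} (hΦ : ∀ t ≠ 0, DifferentiableAt ℂ Φ t) :
    Differentiable ℂ fun v : ℂ => ∮ τ in C(0, (‖v‖ + 1)⁻¹), (1 - τ * v)⁻¹ * Φ τ := by
  intro v₀
  have hR : 0 < ‖v₀‖ + 1 := by positivity
  have hne : ∀ {R : ℝ} {v τ : ℂ}, ‖v‖ < R → ‖τ‖ ≤ R⁻¹ → 1 - τ * v ≠ 0 := by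
    intro R v τ h1 h2 h
    have hR0 : 0 < R := (norm_nonneg _).trans_lt h1
    have h3 : ‖τ * v‖ = 1 := by
      rw [sub_eq_zero] at h
      rw [← h, norm_one]
    rw [norm_mul] at h3
    have h4 : ‖τ‖ * ‖v‖ ≤ R⁻¹ * ‖v‖ := by gcongr
    have h5 : R⁻¹ * ‖v‖ < R⁻¹ * R := by gcongr
    rw [inv_mul_cancel₀ hR0.ne'] at h5
    linarith
  have h1 : DifferentiableOn ℂ (fun v : ℂ => ∮ τ in C(0, (‖v₀‖ + 1)⁻¹), (1 - τ * v)⁻¹ * Φ τ)
      (ball 0 (‖v₀‖ + 1)) := by
    refine differentiableOn_circleIntegral (Φ := fun v τ => (1 - τ * v)⁻¹ * Φ τ) isOpen_ball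
      (inv_pos.2 hR).le ?_ ?_
    · intro p hp
      have hp1 := hp.1
      have hp2 := hp.2
      rw [mem_ball_zero_iff] at hp1
      rw [mem_sphere_zero_iff_norm] at hp2
      refine ContinuousAt.continuousWithinAt (ContinuousAt.mul ?_ ?_)
      · exact ContinuousAt.inv₀ (by fun_prop) (hne hp1 hp2.le)
      · exact ContinuousAt.comp (hΦ _ (ne_zero_of_pos_le (inv_pos.2 hR) hp2.ge)).continuousAt
          continuousAt_snd
    · intro τ hτ v hv
      rw [mem_ball_zero_iff] at hv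
      rw [mem_sphere_zero_iff_norm] at hτ
      refine DifferentiableAt.differentiableWithinAt (DifferentiableAt.mul_const ?_ _)
      exact DifferentiableAt.inv (by fun_prop) (hne hv hτ.le)
  have h2 : ball (0 : ℂ) (‖v₀‖ + 1) ∈ 𝓝 v₀ :=
    isOpen_ball.mem_nhds (by rw [mem_ball_zero_iff]; linarith)
  refine (h1.differentiableAt h2).congr_of_eventuallyEq ?_
  filter_upwards [h2] with v hv
  rw [mem_ball_zero_iff] at hv
  have hv1 : 0 < ‖v‖ + 1 := by positivity
  refine circle_eq (inv_pos.2 hR) (inv_pos.2 hv1) fun z hz hz' => ?_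
  have hpos : 0 < min (‖v₀‖ + 1)⁻¹ (‖v‖ + 1)⁻¹ := lt_min (inv_pos.2 hR) (inv_pos.2 hv1)
  refine (DifferentiableAt.inv (by fun_prop) ?_).mul (hΦ _ (ne_zero_of_pos_le hpos hz))
  rcases le_max_iff.1 hz' with h | h
  · exact hne hv h
  · exact hne (by linarith) h

/-- Laurent splitting on the punctured plane. -/
theorem laurent_split {Φ : ℂ → ℂ} (hΦ : ∀ t ≠ 0, DifferentiableAt ℂ Φ t) :
    ∃ A B : ℂ → ℂ, Differentiable ℂ A ∧ Differentiable ℂ B ∧
      ∀ t ≠ 0, 2 * π * I * Φ t = (∮ τ in C(0, 1), τ⁻¹ * Φ τ) + t * A t + t⁻¹ * B t⁻¹ := by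
  refine ⟨dslope (fun t : ℂ => ∮ τ in C(0, ‖t‖ + 1), (τ - t)⁻¹ * Φ τ) 0, _,
    differentiable_dslope (outer_part hΦ) 0, inner_part hΦ, fun t ht => ?_⟩
  have hA := sub_smul_dslope (fun t : ℂ => ∮ τ in C(0, ‖t‖ + 1), (τ - t)⁻¹ * Φ τ) 0 t
  simp only [sub_zero, norm_zero, zero_add, smul_eq_mul] at hA
  rw [hA]
  have ht0 : 0 < ‖t‖ := norm_pos_iff.2 ht
  set R : ℝ := ‖t‖ + 1 with hR
  set ρ : ℝ := (‖t⁻¹‖ + 1)⁻¹ with hρ
  have hρ0 : 0 < ρ := by positivity
  have hρt : ρ < ‖t‖ := by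
    rw [hρ, norm_inv]
    rw [inv_lt_comm₀ (by positivity) ht0]
    linarith
  have hR0 : 0 < R := by positivity
  have hO : IsOpen ({0}ᶜ : Set ℂ) := isOpen_compl_singleton
  have hd : DifferentiableOn ℂ (dslope Φ t) {0}ᶜ :=
    (Complex.differentiableOn_dslope (hO.mem_nhds ht)).2
      fun z hz => (hΦ z hz).differentiableWithinAt
  have h1 : (∮ z in C(0, R), dslope Φ t z) = ∮ z in C(0, ρ), dslope Φ t z :=
    circle_eq_of_le hρ0 (by linarith) fun z hz _ =>
      hd.differentiableAt (hO.mem_nhds (ne_zero_of_pos_le hρ0 hz))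
  have hsplit : ∀ r : ℝ, 0 < r → r ≠ ‖t‖ → (∮ z in C(0, r), dslope Φ t z) =
      (∮ z in C(0, r), (z - t)⁻¹ * Φ z) - (∮ z in C(0, r), (z - t)⁻¹) * Φ t := by
    intro r hr hrt
    have hzt : ∀ z ∈ sphere (0 : ℂ) r, z - t ≠ 0 := fun z hz h => by
      rw [mem_sphere_zero_iff_norm] at hz
      rw [sub_eq_zero] at h
      exact hrt (by rw [← hz, h])
    have hc1 : ContinuousOn (fun z : ℂ => (z - t)⁻¹) (sphere 0 r) :=
      ContinuousOn.inv₀ (by fun_prop) hzt
    have hc2 : ContinuousOn Φ (sphere 0 r) := fun z hz => by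
      rw [mem_sphere_zero_iff_norm] at hz
      exact (hΦ z (ne_zero_of_pos_le hr hz.ge)).continuousAt.continuousWithinAt
    have e1 : (∮ z in C(0, r), (z - t)⁻¹) * Φ t = ∮ z in C(0, r), (z - t)⁻¹ * Φ t := by
      have := circleIntegral.integral_smul_const (fun z : ℂ => (z - t)⁻¹) (Φ t) 0 r
      simpa using this.symm
    have i1 : CircleIntegrable (fun z : ℂ => (z - t)⁻¹ * Φ z) 0 r :=
      (hc1.mul hc2).circleIntegrable hr.le
    have i2 : CircleIntegrable (fun z : ℂ => (z - t)⁻¹ * Φ t) 0 r :=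
      (hc1.mul continuousOn_const).circleIntegrable hr.le
    rw [e1, ← circleIntegral.integral_sub i1 i2]
    refine circleIntegral.integral_congr hr.le fun z hz => ?_
    have hz' : z ≠ t := sub_ne_zero.1 (hzt z hz)
    simp only [dslope_of_ne _ hz', slope_def_field]
    field_simp
  have h2 : (∮ z in C(0, R), (z - t)⁻¹) = 2 * π * I :=
    circleIntegral.integral_sub_inv_of_mem_ball (by rw [mem_ball_zero_iff]; linarith)
  have h3 : (∮ z in C(0, ρ), (z - t)⁻¹) = 0 := by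
    have hzt : ∀ z ∈ closedBall (0 : ℂ) ρ, z - t ≠ 0 := fun z hz h => by
      rw [mem_closedBall_zero_iff] at hz
      rw [sub_eq_zero] at h
      rw [h] at hz
      linarith
    refine circleIntegral_eq_zero_of_differentiable_on_off_countable hρ0.le countable_empty
      (ContinuousOn.inv₀ (by fun_prop) hzt) fun z hz => ?_
    exact DifferentiableAt.inv (by fun_prop) (hzt z (ball_subset_closedBall hz.1))
  have h4 : t⁻¹ * (∮ τ in C(0, ρ), (1 - τ * t⁻¹)⁻¹ * Φ τ) =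
      -∮ z in C(0, ρ), (z - t)⁻¹ * Φ z := by
    rw [← circleIntegral.integral_const_mul, ← neg_one_mul, ← circleIntegral.integral_const_mul]
    refine circleIntegral.integral_congr hρ0.le fun z hz => ?_
    rw [mem_sphere_zero_iff_norm] at hz
    have hzt : z - t ≠ 0 := fun h => by
      rw [sub_eq_zero] at h
      rw [h] at hz
      linarith
    have hzt' : t - z ≠ 0 := fun h => hzt (by linear_combination -h)
    have e : 1 - z * t⁻¹ = (t - z) * t⁻¹ := by field_simp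
    simp only [e]
    field_simp
    ring
  rw [hsplit R hR0 (by linarith), hsplit ρ hρ0 hρt.ne, h2, h3] at h1
  rw [h4]
  linear_combination -h1

end Pool.Agent.Lib.MP_a2f1b8_an
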