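import Pool.Agent.Lib.MP_a2f1b8_an.Fibre
import Pool.Agent.Lib.MP_a2f1b8_an.Laurent
import Pool.Agent.Lib.MP_a2f1b8_an.Immersion

/-!
Gluing the two fibre primitives: the immersion for a cubic in Weierstrass form.
-/

open Set Filter Topology MeasureTheory Complex Function Metric
open scoped Real

namespace Pool.Agent.Lib.MP_a2f1b8_an

theorem immersion_of_glue {Ω : Set (Fin 3 → ℂ)} (hΩ : IsOpen Ω) {Hp Hm : (Fin 3 → ℂ) → ℂ}
    (hcov : ∀ w ∈ Ω, w 2 = 0 → w 0 ≠ 0)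
    (hdp : ∀ w ∈ Ω, w 2 ≠ 0 → DifferentiableAt ℂ Hp w)
    (hdm : ∀ w ∈ Ω, w 0 ≠ 0 → DifferentiableAt ℂ Hm w)
    (hjump : ∀ w ∈ Ω, w 0 ≠ 0 → w 2 ≠ 0 → Hp w - Hm w = 1 / (w 0 * w 2))
    (hyp : ∀ w ∈ Ω, w 2 ≠ 0 → ∃ μ : ℂ, μ ≠ 0 ∧ HasDerivAt (fun y => Hp (update w 1 y)) μ (w 1))
    (hym : ∀ w ∈ Ω, w 0 ≠ 0 → ∃ μ : ℂ, μ ≠ 0 ∧ HasDerivAt (fun y => Hm (update w 1 y)) μ (w 1))
    (hsp : ∀ w ∈ Ω, w 2 ≠ 0 → ∀ c : ℂ, c ≠ 0 → Hp (c • w) = (c ^ 2)⁻¹ * Hp w)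
    (hsm : ∀ w ∈ Ω, w 0 ≠ 0 → ∀ c : ℂ, c ≠ 0 → Hm (c • w) = (c ^ 2)⁻¹ * Hm w) :
    ∃ F : (Fin 3 → ℂ) → (Fin 2 → ℂ), DifferentiableOn ℂ F Ω ∧
      (∀ w ∈ Ω, ∀ c : ℂ, c ≠ 0 → F (c • w) = F w) ∧ ∀ w ∈ Ω, Surjective (fderiv ℂ F w) := by
  classical
  have o0 : IsOpen {w : Fin 3 → ℂ | w 0 ≠ 0} := isOpen_ne_fun (by fun_prop) (by fun_prop)
  have o2 : IsOpen {w : Fin 3 → ℂ | w 2 ≠ 0} := isOpen_ne_fun (by fun_prop) (by fun_prop)
  have u0 : ∀ (w : Fin 3 → ℂ) (y : ℂ), update w 1 y 0 = w 0 := fun w y => by simp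
  have u2 : ∀ (w : Fin 3 → ℂ) (y : ℂ), update w 1 y 2 = w 2 := fun w y => by simp
  refine immersion_of_ND hΩ
    (N := fun w => if w 2 = 0 then w 0 * Hm w else -1 / w 2 + w 0 * Hp w)
    (D := fun w => if w 2 = 0 then 1 / w 0 + w 2 * Hm w else w 2 * Hp w) ?_ ?_ ?_ ?_ ?_
  · intro w hw
    refine DifferentiableAt.differentiableWithinAt ?_
    by_cases h2 : w 2 = 0
    · have h0 := hcov w hw h2
      have h1 := hdm w hw h0
      have h3 : DifferentiableAt ℂ (fun w : Fin 3 → ℂ => w 0 * Hm w) w := by fun_prop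
      refine h3.congr_of_eventuallyEq ?_
      filter_upwards [hΩ.mem_nhds hw, o0.mem_nhds h0] with u hu hu0
      split_ifs with hu2
      · rfl
      · have := hjump u hu hu0 hu2
        have e : u 0 * (1 / (u 0 * u 2)) = 1 / u 2 := by
          have : u 0 ≠ 0 := hu0
          field_simp
        linear_combination u 0 * this + e
    · have h1 := hdp w hw h2
      have h3 : DifferentiableAt ℂ (fun w : Fin 3 → ℂ => -1 / w 2 + w 0 * Hp w) w := by
        fun_prop (disch := assumption)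
      refine h3.congr_of_eventuallyEq ?_
      filter_upwards [o2.mem_nhds h2] with u hu2
      rw [if_neg hu2]
  · intro w hw
    refine DifferentiableAt.differentiableWithinAt ?_
    by_cases h2 : w 2 = 0
    · have h0 := hcov w hw h2
      have h1 := hdm w hw h0
      have h3 : DifferentiableAt ℂ (fun w : Fin 3 → ℂ => 1 / w 0 + w 2 * Hm w) w := by
        fun_prop (disch := assumption)
      refine h3.congr_of_eventuallyEq ?_
      filter_upwards [hΩ.mem_nhds hw, o0.mem_nhds h0] with u hu hu0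
      split_ifs with hu2
      · rfl
      · have := hjump u hu hu0 hu2
        have e : u 2 * (1 / (u 0 * u 2)) = 1 / u 0 := by
          have : u 0 ≠ 0 := hu0
          field_simp
        linear_combination u 2 * this + e
    · have h1 := hdp w hw h2
      have h3 : DifferentiableAt ℂ (fun w : Fin 3 → ℂ => w 2 * Hp w) w := by fun_prop
      refine h3.congr_of_eventuallyEq ?_
      filter_upwards [o2.mem_nhds h2] with u hu2
      rw [if_neg hu2]
  · intro w hw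
    split_ifs with h2
    · have h0 := hcov w hw h2
      field_simp
      ring
    · field_simp
      ring
  · intro w hw
    simp only [u0, u2]
    split_ifs with h2
    · obtain ⟨μ, hμ, h⟩ := hym w hw (hcov w hw h2)
      refine ⟨μ, hμ, ?_, ?_⟩
      · rw [mul_comm μ]
        exact h.const_mul _
      · rw [mul_comm μ]
        exact (h.const_mul _).const_add _
    · obtain ⟨μ, hμ, h⟩ := hyp w hw h2
      refine ⟨μ, hμ, ?_, ?_⟩
      · rw [mul_comm μ]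
        exact (h.const_mul _).const_add _
      · rw [mul_comm μ]
        exact h.const_mul _
  · intro w hw c hc
    simp only [Pi.smul_apply, smul_eq_mul, mul_eq_zero, hc, false_or]
    split_ifs with h2
    · have h0 := hcov w hw h2
      rw [hsm w hw h0 c hc]
      constructor <;> field_simp
    · rw [hsp w hw h2 c hc]
      constructor <;> field_simp

theorem Prof.exists_eps (D : Prof) (α β : ℂ) : ∃ ε : ℂ, ε ≠ 0 ∧
    (∮ τ in C(0, 1), τ⁻¹ * D.K (-(ε ^ 2 * (τ + α + β * τ⁻¹) / 4))) ≠ 0 := by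
  have dK := D.dK
  have cK := dK.continuous
  have h1 : DifferentiableOn ℂ
      (fun ε : ℂ => ∮ τ in C(0, 1), τ⁻¹ * D.K (-(ε ^ 2 * (τ + α + β * τ⁻¹) / 4))) univ := by
    refine differentiableOn_circleIntegral
      (Φ := fun ε τ => τ⁻¹ * D.K (-(ε ^ 2 * (τ + α + β * τ⁻¹) / 4))) isOpen_univ zero_le_one ?_ ?_
    · intro p hp
      have hp2 := hp.2
      rw [mem_sphere_zero_iff_norm] at hp2
      have h0 : p.2 ≠ 0 := ne_zero_of_pos_le zero_lt_one hp2.ge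
      refine ContinuousAt.continuousWithinAt ?_
      fun_prop (disch := assumption)
    · intro τ _
      refine Differentiable.differentiableOn ?_
      fun_prop
  have h2 := (differentiableOn_univ.1 h1).continuous.continuousAt (x := 0)
  have h3 : (∮ τ in C(0, 1), τ⁻¹ * D.K (-((0 : ℂ) ^ 2 * (τ + α + β * τ⁻¹) / 4))) ≠ 0 := by
    have e1 := circleIntegral.integral_smul_const (fun z : ℂ => (z - 0)⁻¹) (D.K 0) 0 1
    rw [circleIntegral.integral_sub_inv_of_mem_ball (mem_ball_self zero_lt_one)] at e1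
    simp only [sub_zero, smul_eq_mul] at e1
    simp only [ne_eq, OfNat.ofNat_ne_zero, not_false_eq_true, zero_pow, zero_mul, zero_div,
      neg_zero, e1]
    exact mul_ne_zero two_pi_I_ne_zero D.K_zero
  have h4 := (h2.eventually_ne h3).filter_mono (nhdsWithin_le_nhds (s := {0}ᶜ))
  obtain ⟨ε, h5, h6⟩ := (h4.and self_mem_nhdsWithin).exists
  exact ⟨ε, h6, h5⟩

theorem weierstrass_immersion (α β : ℂ) :
    ∃ F : (Fin 3 → ℂ) → (Fin 2 → ℂ), DifferentiableOn ℂ F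
      {w | w 1 ^ 2 * w 2 - w 0 * (w 0 ^ 2 + α * w 0 * w 2 + β * w 2 ^ 2) ≠ 0} ∧
      (∀ w ∈ {w : Fin 3 → ℂ | w 1 ^ 2 * w 2 - w 0 * (w 0 ^ 2 + α * w 0 * w 2 + β * w 2 ^ 2) ≠ 0},
        ∀ c : ℂ, c ≠ 0 → F (c • w) = F w) ∧
      ∀ w ∈ {w : Fin 3 → ℂ | w 1 ^ 2 * w 2 - w 0 * (w 0 ^ 2 + α * w 0 * w 2 + β * w 2 ^ 2) ≠ 0},
        Surjective (fderiv ℂ F w) := by
  obtain ⟨D⟩ := nonempty_prof
  obtain ⟨ε, hε, hr⟩ := D.exists_eps α β
  have dK := D.dK
  obtain ⟨A, B, dA, dB, hAB⟩ := laurent_split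
    (Φ := fun τ => D.K (-(ε ^ 2 * (τ + α + β * τ⁻¹) / 4))) (fun t ht => by
      fun_prop (disch := assumption))
  generalize (∮ τ in C(0, 1), τ⁻¹ * D.K (-(ε ^ 2 * (τ + α + β * τ⁻¹) / 4))) = r at hr hAB
  have hκ : -(4 * (2 * π * I)) / (ε * r) ≠ 0 :=
    div_ne_zero (neg_ne_zero.2 (mul_ne_zero (by norm_num) two_pi_I_ne_zero)) (mul_ne_zero hε hr)
  have u0 : ∀ (w : Fin 3 → ℂ) (y : ℂ), update w 1 y 0 = w 0 := fun w y => by simp
  have u2 : ∀ (w : Fin 3 → ℂ) (y : ℂ), update w 1 y 2 = w 2 := fun w y => by simp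
  refine immersion_of_glue (isOpen_ne_fun (by fun_prop) (by fun_prop))
    (Hp := fun w => -(4 * (2 * π * I)) / (ε * r) *
      (D.H0 ε (w 0) (w 2) (w 0 ^ 2 + α * w 0 * w 2 + β * w 2 ^ 2) (w 1) +
        D.Cp ε (w 0) (w 2) (w 0 ^ 2 + α * w 0 * w 2 + β * w 2 ^ 2) (w 1)) -
      A (w 0 / w 2) / (r * w 2 ^ 2))
    (Hm := fun w => -(4 * (2 * π * I)) / (ε * r) *
      (D.H0 ε (w 0) (w 2) (w 0 ^ 2 + α * w 0 * w 2 + β * w 2 ^ 2) (w 1) +
        D.Cm ε (w 0) (w 2) (w 0 ^ 2 + α * w 0 * w 2 + β * w 2 ^ 2) (w 1)) +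
      B (w 2 / w 0) / (r * w 0 ^ 2)) ?_ ?_ ?_ ?_ ?_ ?_ ?_ ?_
  · intro w hw h2 h0
    apply hw
    rw [h2, h0]
    ring
  · intro w hw h2
    have h3 : r * w 2 ^ 2 ≠ 0 := mul_ne_zero hr (pow_ne_zero 2 h2)
    refine DifferentiableAt.sub (DifferentiableAt.const_mul (DifferentiableAt.add ?_ ?_) _) ?_
    · exact D.differentiableAt_H0 ε (by fun_prop) (by fun_prop) (by fun_prop) (by fun_prop) hw
    · exact D.differentiableAt_Cp ε (by fun_prop) (by fun_prop) (by fun_prop) (by fun_prop) h2 hw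
    · fun_prop (disch := assumption)
  · intro w hw h0
    have h3 : r * w 0 ^ 2 ≠ 0 := mul_ne_zero hr (pow_ne_zero 2 h0)
    refine DifferentiableAt.add (DifferentiableAt.const_mul (DifferentiableAt.add ?_ ?_) _) ?_
    · exact D.differentiableAt_H0 ε (by fun_prop) (by fun_prop) (by fun_prop) (by fun_prop) hw
    · exact D.differentiableAt_Cm ε (by fun_prop) (by fun_prop) (by fun_prop) (by fun_prop) h0 hw
    · fun_prop (disch := assumption)
  · intro w hw h0 h2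
    have h1 := D.Cp_sub_Cm (ε := ε) h0 h2 hw
    have h3 := hAB (w 0 / w 2) (div_ne_zero h0 h2)
    have e1 : -(ε ^ 2 * (w 0 ^ 2 + α * w 0 * w 2 + β * w 2 ^ 2) / (4 * w 0 * w 2)) =
        -(ε ^ 2 * (w 0 / w 2 + α + β * (w 0 / w 2)⁻¹) / 4) := by field_simp
    rw [e1] at h1
    rw [inv_div] at h3
    simp only [inv_div] at h1 ⊢
    generalize D.K _ = k at h1 h3
    have e2 : -(4 * (2 * π * I)) / (ε * r) * (-(ε / (4 * w 0 * w 2)) * k) =
        (2 * π * I * k) / (r * w 0 * w 2) := by field_simp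
    have e3 : (r + w 0 / w 2 * A (w 0 / w 2) + w 2 / w 0 * B (w 2 / w 0)) / (r * w 0 * w 2) =
        1 / (w 0 * w 2) + A (w 0 / w 2) / (r * w 2 ^ 2) + B (w 2 / w 0) / (r * w 0 ^ 2) := by
      field_simp
    rw [h3, e3] at e2
    linear_combination (-(4 * (2 * π * I)) / (ε * r)) * h1 + e2
  · intro w hw h2
    refine ⟨_, mul_ne_zero hκ (div_ne_zero (neg_ne_zero.2 (D.U_ne ε (w 0) (w 2)
      (w 0 ^ 2 + α * w 0 * w 2 + β * w 2 ^ 2) (w 1))) hw), ?_⟩
    simp only [u0, u2, update_self]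
    exact ((D.hasDerivAt_Hp ε h2 hw).const_mul _).sub_const _
  · intro w hw h0
    refine ⟨_, mul_ne_zero hκ (div_ne_zero (neg_ne_zero.2 (D.U_ne ε (w 0) (w 2)
      (w 0 ^ 2 + α * w 0 * w 2 + β * w 2 ^ 2) (w 1))) hw), ?_⟩
    simp only [u0, u2, update_self]
    exact ((D.hasDerivAt_Hm ε h0 hw).const_mul _).add_const _
  · intro w hw h2 c hc
    have e1 : (c * w 0) ^ 2 + α * (c * w 0) * (c * w 2) + β * (c * w 2) ^ 2 =
        c ^ 2 * (w 0 ^ 2 + α * w 0 * w 2 + β * w 2 ^ 2) := by ring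
    simp only [Pi.smul_apply, smul_eq_mul, e1]
    rw [D.H0_smul ε hc hw, D.Cp_smul ε hc h2 hw, mul_div_mul_left _ _ hc]
    field_simp
  · intro w hw h0 c hc
    have e1 : (c * w 0) ^ 2 + α * (c * w 0) * (c * w 2) + β * (c * w 2) ^ 2 =
        c ^ 2 * (w 0 ^ 2 + α * w 0 * w 2 + β * w 2 ^ 2) := by ring
    simp only [Pi.smul_apply, smul_eq_mul, e1]
    rw [D.H0_smul ε hc hw, D.Cm_smul ε hc h0 hw, mul_div_mul_left _ _ hc]
    field_simp

end Pool.Agent.Lib.MP_a2f1b8_an
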