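import Mathlib

/-!
Holomorphic dependence of integrals on parameters, primitives along segments, factorization of
even and odd entire functions through the square, and the Laurent splitting on the punctured plane.
-/

open Set Filter Topology MeasureTheory Metric Complex
open scoped Real

namespace Pool.Agent.Lib.MP_a2f1b8_an

section Param

variable {E F : Type} [NormedAddCommGroup E] [NormedSpace ℂ E] [NormedAddCommGroup F]
  [NormedSpace ℂ F]

/-- Cauchy estimate for the derivative. -/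
theorem norm_fderiv_le_of_ball {f : E → F} {x : E} {r M : ℝ} (hr : 0 < r)
    (hf : DifferentiableOn ℂ f (ball x r)) (hM : ∀ y ∈ ball x r, ‖f y‖ ≤ M) :
    ‖fderiv ℂ f x‖ ≤ 2 * M / r := by
  refine Complex.norm_fderiv_le_div_of_mapsTo_ball hf (fun y hy => ?_) hr
  rw [mem_closedBall, dist_eq_norm]
  have h1 := hM y hy
  have h2 := hM x (mem_ball_self hr)
  have h3 := norm_sub_le (f y) (f x)
  linarith

/-- Continuity of the derivative in a parameter. -/
theorem continuous_fderiv_param [FiniteDimensional ℂ E] {T : Type} [TopologicalSpace T]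
    {Ψ : E → T → F} {O : Set E} (hO : IsOpen O)
    (hc : ContinuousOn (fun p : E × T => Ψ p.1 p.2) (O ×ˢ univ))
    (hd : ∀ t, DifferentiableOn ℂ (fun w => Ψ w t) O) {x : E} (hx : x ∈ O) :
    Continuous fun t => fderiv ℂ (fun w => Ψ w t) x := by
  have : ProperSpace E := FiniteDimensional.proper ℂ E
  obtain ⟨r, hr, hrO⟩ := nhds_basis_closedBall.mem_iff.1 (hO.mem_nhds hx)
  rw [continuous_iff_continuousAt]
  intro t₀
  rw [ContinuousAt, Metric.tendsto_nhds]
  intro ε hε
  have hev : ∀ᶠ t in 𝓝 t₀, ∀ y ∈ closedBall x r, ‖Ψ y t - Ψ y t₀‖ ≤ ε * r / 4 := by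
    refine (isCompact_closedBall x r).eventually_forall_of_forall_eventually fun y hy => ?_
    have hy' : y ∈ O := hrO hy
    have hca : ContinuousAt (fun p : E × T => Ψ p.1 p.2) (y, t₀) :=
      hc.continuousAt ((hO.prod isOpen_univ).mem_nhds ⟨hy', mem_univ _⟩)
    have h1 : ContinuousAt (fun z : T × E => Ψ z.2 z.1) (t₀, y) :=
      ContinuousAt.comp (f := fun z : T × E => (z.2, z.1)) (g := fun p : E × T => Ψ p.1 p.2)
        hca (by fun_prop)
    have h2 : ContinuousAt (fun z : T × E => Ψ z.2 t₀) (t₀, y) :=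
      ContinuousAt.comp (f := fun z : T × E => (z.2, t₀)) (g := fun p : E × T => Ψ p.1 p.2)
        hca (by fun_prop)
    have h3 : ContinuousAt (fun z : T × E => ‖Ψ z.2 z.1 - Ψ z.2 t₀‖) (t₀, y) := (h1.sub h2).norm
    have h4 : ‖Ψ (t₀, y).2 (t₀, y).1 - Ψ (t₀, y).2 t₀‖ < ε * r / 4 := by
      simp only [sub_self, norm_zero]; positivity
    filter_upwards [h3.eventually (gt_mem_nhds h4)] with z hz using hz.le
  filter_upwards [hev] with t ht
  have hb : ball x r ⊆ O := ball_subset_closedBall.trans hrO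
  have d1 : DifferentiableAt ℂ (fun w => Ψ w t) x := (hd t).differentiableAt (hO.mem_nhds hx)
  have d2 : DifferentiableAt ℂ (fun w => Ψ w t₀) x := (hd t₀).differentiableAt (hO.mem_nhds hx)
  rw [dist_eq_norm, ← fderiv_fun_sub d1 d2]
  have := norm_fderiv_le_of_ball (f := fun w => Ψ w t - Ψ w t₀) hr
    (((hd t).sub (hd t₀)).mono hb) (fun y hy => ht y (ball_subset_closedBall hy))
  refine this.trans_lt ?_
  rw [div_lt_iff₀ hr]
  nlinarith [mul_pos hε hr]

/-- Interval integrals depend holomorphically on parameters. -/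
theorem differentiableOn_intervalIntegral [FiniteDimensional ℂ E] [CompleteSpace F]
    {Ψ : E → ℝ → F} {O : Set E} (hO : IsOpen O) {a b : ℝ}
    (hc : ContinuousOn (fun p : E × ℝ => Ψ p.1 p.2) (O ×ˢ univ))
    (hd : ∀ t, DifferentiableOn ℂ (fun w => Ψ w t) O) :
    DifferentiableOn ℂ (fun w => ∫ θ in a..b, Ψ w θ) O := by
  have : ProperSpace E := FiniteDimensional.proper ℂ E
  intro x hx
  obtain ⟨r, hr, hrO⟩ := nhds_basis_closedBall.mem_iff.1 (hO.mem_nhds hx)
  have hcont : ∀ y ∈ O, Continuous (Ψ y) := fun y hy => by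
    have h2 : Continuous fun θ : ℝ => (y, θ) := by fun_prop
    rw [← continuousOn_univ]
    exact hc.comp h2.continuousOn (fun θ _ => ⟨hy, mem_univ _⟩)
  have hK : IsCompact (closedBall x r ×ˢ uIcc a b) :=
    (isCompact_closedBall x r).prod isCompact_uIcc
  obtain ⟨M, hM⟩ := hK.exists_bound_of_continuousOn
    (hc.mono (prod_mono hrO (subset_univ _)))
  have hr2 : 0 < r / 2 := half_pos hr
  have hsub : ∀ y ∈ ball x (r / 2), ball y (r / 2) ⊆ closedBall x r := fun y hy z hz => by
    rw [mem_ball] at hy hz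
    rw [mem_closedBall]
    have := dist_triangle z y x
    linarith
  refine (intervalIntegral.hasFDerivAt_integral_of_dominated_of_fderiv_le (𝕜 := ℂ)
    (μ := volume) (F := Ψ) (F' := fun y θ => fderiv ℂ (fun w => Ψ w θ) y)
    (bound := fun _ => 2 * M / (r / 2)) (ball_mem_nhds x hr2) ?_ ?_ ?_ ?_ ?_
    ?_).differentiableAt.differentiableWithinAt
  · filter_upwards [hO.mem_nhds hx] with y hy using (hcont y hy).aestronglyMeasurable
  · exact (hcont x hx).intervalIntegrable _ _
  · exact (continuous_fderiv_param hO hc hd hx).aestronglyMeasurable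
  · refine Eventually.of_forall fun θ hθ y hy => ?_
    refine norm_fderiv_le_of_ball hr2 ((hd θ).mono ((hsub y hy).trans hrO)) fun z hz => ?_
    exact hM (z, θ) ⟨hsub y hy hz, uIoc_subset_uIcc hθ⟩
  · exact intervalIntegrable_const
  · refine Eventually.of_forall fun θ _ y hy => ?_
    have hyO : y ∈ O := hrO (hsub y hy (mem_ball_self hr2))
    exact ((hd θ).differentiableAt (hO.mem_nhds hyO)).hasFDerivAt

/-- Circle integrals depend holomorphically on parameters. -/
theorem differentiableOn_circleIntegral [FiniteDimensional ℂ E] [CompleteSpace F]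
    {Φ : E → ℂ → F} {O : Set E} (hO : IsOpen O) {c : ℂ} {R : ℝ} (hR : 0 ≤ R)
    (hc : ContinuousOn (fun p : E × ℂ => Φ p.1 p.2) (O ×ˢ sphere c R))
    (hd : ∀ t ∈ sphere c R, DifferentiableOn ℂ (fun w => Φ w t) O) :
    DifferentiableOn ℂ (fun w => ∮ t in C(c, R), Φ w t) O := by
  have hγ : ∀ θ : ℝ, circleMap c R θ ∈ sphere c R := fun θ => circleMap_mem_sphere c hR θ
  have key : DifferentiableOn ℂ
      (fun w => ∫ θ in (0 : ℝ)..(2 * π), deriv (circleMap c R) θ • Φ w (circleMap c R θ)) O := by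
    refine differentiableOn_intervalIntegral hO ?_ ?_
    · have h1 : Continuous fun p : E × ℝ => deriv (circleMap c R) p.2 := by
        simp only [deriv_circleMap]
        fun_prop
      refine h1.continuousOn.smul ?_
      have h2 : Continuous fun p : E × ℝ => (p.1, circleMap c R p.2) := by fun_prop
      exact hc.comp h2.continuousOn (fun p hp => ⟨hp.1, hγ _⟩)
    · intro θ
      exact (hd _ (hγ θ)).const_smul _
  exact key

end Param

/-- The primitive of `Ψ` along the segment from `0` to `v`. -/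
noncomputable def prim (Ψ : ℂ → ℂ) (v : ℂ) : ℂ := ∫ σ in (0 : ℝ)..1, v * Ψ (σ * v)

theorem prim_eq_sub {Ψ G : ℂ → ℂ} (hΨ : Continuous Ψ) (hG : ∀ t, HasDerivAt G (Ψ t) t) (v : ℂ) :
    prim Ψ v = G v - G 0 := by
  have h1 : ∀ σ ∈ uIcc (0 : ℝ) 1,
      HasDerivAt (fun s : ℝ => G (s * v)) (v * Ψ (σ * v)) σ := by
    intro σ _
    have h2 : HasDerivAt (fun s : ℂ => G (s * v)) (Ψ (σ * v) * (1 * v)) (σ : ℂ) :=
      (hG _).comp (σ : ℂ) ((hasDerivAt_id (σ : ℂ)).mul_const v)
    have h3 := h2.comp_ofReal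
    rwa [one_mul, mul_comm] at h3
  have h4 : IntervalIntegrable (fun σ : ℝ => v * Ψ (σ * v)) volume 0 1 :=
    Continuous.intervalIntegrable (by fun_prop) _ _
  have := intervalIntegral.integral_eq_sub_of_hasDerivAt h1 h4
  simpa [prim] using this

theorem hasDerivAt_prim {Ψ : ℂ → ℂ} (hΨ : Differentiable ℂ Ψ) (v : ℂ) :
    HasDerivAt (prim Ψ) (Ψ v) v := by
  obtain ⟨G, hG⟩ := hΨ.isExactOn_univ
  have h1 : prim Ψ = fun t => G t - G 0 :=
    funext fun t => prim_eq_sub hΨ.continuous (fun s => hG s (mem_univ _)) t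
  rw [h1]
  exact (hG v (mem_univ _)).sub_const _

theorem prim_zero (Ψ : ℂ → ℂ) : prim Ψ 0 = 0 := by simp [prim]

theorem prim_scale {Ψ Ψ' : ℂ → ℂ} {k : ℂ} (h : ∀ t, Ψ' (k * t) = Ψ t) (v : ℂ) :
    prim Ψ' (k * v) = k * prim Ψ v := by
  unfold prim
  rw [← intervalIntegral.integral_const_mul]
  refine intervalIntegral.integral_congr fun σ _ => ?_
  have : (σ : ℂ) * (k * v) = k * (σ * v) := by ring
  simp only [this, h]
  ring

theorem differentiable_prim {E : Type} [NormedAddCommGroup E] [NormedSpace ℂ E]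
    [FiniteDimensional ℂ E] {Ψ : E → ℂ → ℂ}
    (hΨ : Differentiable ℂ fun p : E × ℂ => Ψ p.1 p.2) :
    Differentiable ℂ fun p : E × ℂ => prim (Ψ p.1) p.2 := by
  rw [← differentiableOn_univ]
  unfold prim
  refine differentiableOn_intervalIntegral (Ψ := fun (p : E × ℂ) (σ : ℝ) => p.2 * Ψ p.1 (σ * p.2))
    isOpen_univ ?_ ?_
  · refine Continuous.continuousOn ?_
    have h1 : Continuous fun q : (E × ℂ) × ℝ => ((q.1.1, (q.2 : ℂ) * q.1.2) : E × ℂ) := by
      fun_prop
    exact (continuous_snd.comp continuous_fst).mul (hΨ.continuous.comp h1)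
  · intro σ
    refine Differentiable.differentiableOn ?_
    have h1 : Differentiable ℂ fun q : E × ℂ => ((q.1, (σ : ℂ) * q.2) : E × ℂ) := by
      fun_prop
    exact differentiable_snd.mul (hΨ.comp h1)

theorem differentiable_dslope {φ : ℂ → ℂ} (hφ : Differentiable ℂ φ) (c : ℂ) :
    Differentiable ℂ (dslope φ c) := by
  rw [← differentiableOn_univ]
  exact (Complex.differentiableOn_dslope univ_mem).2 hφ.differentiableOn

/-- An even entire function is an entire function of the square. -/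
theorem exists_sq_of_even {φ : ℂ → ℂ} (hφ : Differentiable ℂ φ) (he : ∀ n, φ (-n) = φ n) :
    ∃ Φ : ℂ → ℂ, Differentiable ℂ Φ ∧ ∀ n, φ n = Φ (n ^ 2) := by
  have hsq : ∀ m : ℂ, (m ^ (2 : ℂ)⁻¹) ^ 2 = m := fun m => by
    simp
  have key : ∀ a b : ℂ, a ^ 2 = b ^ 2 → φ a = φ b := fun a b h => by
    rcases sq_eq_sq_iff_eq_or_eq_neg.1 h with h | h
    · rw [h]
    · rw [h, he]
  refine ⟨fun m => φ (m ^ (2 : ℂ)⁻¹), ?_, fun n => key _ _ (hsq _).symm⟩
  have hne : ∀ m : ℂ, m ≠ 0 → DifferentiableAt ℂ (fun m => φ (m ^ (2 : ℂ)⁻¹)) m := by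
    intro m hm
    rcases mem_slitPlane_or_neg_mem_slitPlane hm with h | h
    · exact (hφ _).comp m (differentiableAt_id.cpow_const h)
    · have h1 : (fun m : ℂ => φ (m ^ (2 : ℂ)⁻¹)) = fun m => φ (I * (-m) ^ (2 : ℂ)⁻¹) := by
        funext m
        apply key
        rw [mul_pow, hsq, hsq, I_sq]
        ring
      rw [h1]
      exact (hφ _).comp m ((differentiableAt_id.neg.cpow_const h).const_mul I)
  intro m
  rcases eq_or_ne m 0 with rfl | hm
  · refine (analyticAt_of_differentiable_on_punctured_nhds_of_continuousAt ?_ ?_).differentiableAt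
    · filter_upwards [self_mem_nhdsWithin] with z hz using hne z hz
    · refine ContinuousAt.comp hφ.continuous.continuousAt ?_
      exact Complex.continuousAt_cpow_const_of_re_pos (Or.inl (by simp)) (by norm_num)
  · exact hne m hm

/-- An odd entire function is `n` times an entire function of the square. -/
theorem exists_sq_of_odd {φ : ℂ → ℂ} (hφ : Differentiable ℂ φ) (ho : ∀ n, φ (-n) = -φ n) :
    ∃ Φ : ℂ → ℂ, Differentiable ℂ Φ ∧ Φ 0 = deriv φ 0 ∧ ∀ n, φ n = n * Φ (n ^ 2) := by
  have h0 : φ 0 = 0 := by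
    have := ho 0
    rw [neg_zero] at this
    linear_combination this / 2
  have hd : ∀ n, φ n = n * dslope φ 0 n := fun n => by
    have := sub_smul_dslope φ 0 n
    rw [sub_zero, h0, sub_zero, smul_eq_mul] at this
    exact this.symm
  have he : ∀ n, dslope φ 0 (-n) = dslope φ 0 n := fun n => by
    rcases eq_or_ne n 0 with rfl | hn
    · rw [neg_zero]
    · have h1 := hd (-n)
      rw [ho, hd n] at h1
      have : n * (dslope φ 0 (-n) - dslope φ 0 n) = 0 := by linear_combination h1
      exact sub_eq_zero.1 ((mul_eq_zero.1 this).resolve_left hn)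
  obtain ⟨Φ, hΦ, h⟩ := exists_sq_of_even (differentiable_dslope hφ 0) he
  refine ⟨Φ, hΦ, ?_, fun n => by rw [← h, ← hd]⟩
  have := h 0
  rw [dslope_same] at this
  simpa using this.symm

end Pool.Agent.Lib.MP_a2f1b8_an
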