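import Pool.Agent.Lib.MP_a2f1b8_an.Holo

/-!
The one-variable profile functions.
-/

open Set Filter Topology MeasureTheory Metric Complex
open scoped Real

namespace Pool.Agent.Lib.MP_a2f1b8_an

/-- The unit function `exp (i π (n - 1) / 2)`. -/
noncomputable def ee (n : ℂ) : ℂ := exp (π * I * (n - 1) / 2)

theorem ee_one : ee 1 = 1 := by simp [ee]

theorem ee_neg_one : ee (-1) = -1 := by
  have : (π * I * (-1 - 1) / 2 : ℂ) = -(π * I) := by ring
  rw [ee, this, exp_neg, exp_pi_mul_I]
  norm_num

theorem ee_eq (n : ℂ) : ee n = sin (π * n / 2) - I * cos (π * n / 2) := by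
  have h1 : (π * I * (n - 1) / 2 : ℂ) = (π * n / 2 - π / 2) * I := by ring
  rw [ee, h1, exp_mul_I, Complex.cos_sub_pi_div_two, Complex.sin_sub_pi_div_two]
  ring

theorem differentiable_ee : Differentiable ℂ ee := by
  unfold ee
  fun_prop

theorem exists_slope : ∃ s : ℂ → ℂ, Differentiable ℂ s ∧ ∀ n, (1 - n ^ 2) * s n = n - ee n := by
  have hnum : Differentiable ℂ fun n : ℂ => n - ee n := differentiable_id.sub differentiable_ee
  refine ⟨fun n => -dslope (dslope (fun n : ℂ => n - ee n) 1) (-1) n,
    (differentiable_dslope (differentiable_dslope hnum 1) (-1)).neg, fun n => ?_⟩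
  have h1 := sub_smul_dslope (fun n : ℂ => n - ee n) 1 n
  have h2 := sub_smul_dslope (fun n : ℂ => n - ee n) 1 (-1)
  have h3 := sub_smul_dslope (dslope (fun n : ℂ => n - ee n) 1) (-1) n
  simp only [smul_eq_mul, ee_one, ee_neg_one] at h1 h2 h3
  linear_combination (n - 1) * h3 + h1 + (n - 1) / 2 * h2

theorem exists_profile : ∃ h h' ρ : ℂ → ℂ, (∀ n, HasDerivAt h (h' n) n) ∧
    Differentiable ℂ ρ ∧ (∀ n, h (-n) = -h n) ∧ (∀ n, ρ (-n) = -ρ n) ∧
    (∀ n, n * h n - (1 - n ^ 2) * h' n + ρ n ≠ 0) ∧
    (∫ t in (-1 : ℝ)..1, ρ t * h t) ≠ 0 := by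
  obtain ⟨s, hs, hse⟩ := exists_slope
  have hS : ∀ n, HasDerivAt (prim s) (s n) n := hasDerivAt_prim hs
  have hr : ∀ n, HasDerivAt (fun n => exp (prim s n)) (exp (prim s n) * s n) n :=
    fun n => (hS n).cexp
  have hr' : ∀ n, HasDerivAt (fun n => exp (prim s (-n))) (-(exp (prim s (-n)) * s (-n))) n :=
    fun n => by
      have := (hr (-n)).comp n (hasDerivAt_neg n)
      rwa [mul_neg_one] at this
  have dr : Differentiable ℂ fun n => exp (prim s n) := fun n => (hr n).differentiableAt
  have dr' : Differentiable ℂ fun n => exp (prim s (-n)) := fun n => (hr' n).differentiableAt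
  have de := differentiable_ee
  have de' : Differentiable ℂ fun n => ee (-n) := de.comp differentiable_neg
  refine ⟨fun n => (exp (prim s n) - exp (prim s (-n))) / 2,
    fun n => (exp (prim s n) * s n - -(exp (prim s (-n)) * s (-n))) / 2,
    fun n => (exp (prim s n) * ee n - exp (prim s (-n)) * ee (-n)) / 2,
    fun n => ((hr n).sub (hr' n)).div_const 2,
    ((dr.mul de).sub (dr'.mul de')).div_const 2, fun n => ?_, fun n => ?_, fun n => ?_, ?_⟩
  · simp only [neg_neg]
    ring
  · simp only [neg_neg]
    ring
  · have h1 := hse n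
    have h2 := hse (-n)
    have : n * ((exp (prim s n) - exp (prim s (-n))) / 2) -
        (1 - n ^ 2) * ((exp (prim s n) * s n - -(exp (prim s (-n)) * s (-n))) / 2) +
        (exp (prim s n) * ee n - exp (prim s (-n)) * ee (-n)) / 2 = exp (prim s n) * ee n := by
      linear_combination (-exp (prim s n) / 2) * h1 - (exp (prim s (-n)) / 2) * h2
    rw [this]
    exact mul_ne_zero (exp_ne_zero _) (exp_ne_zero _)
  · -- the exact part
    have hG : ∀ n : ℂ, HasDerivAt
        (fun n : ℂ => (1 - n ^ 2) * (exp (prim s (-n)) ^ 2 - exp (prim s n) ^ 2) / 8)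
        ((exp (prim s n) ^ 2 * ee n + exp (prim s (-n)) ^ 2 * ee (-n)) / 4) n := fun n => by
      have h0 : HasDerivAt (fun n : ℂ => 1 - n ^ 2) (-(2 * n)) n := by
        simpa using (hasDerivAt_pow 2 n).const_sub 1
      have h3 := (h0.mul (((hr' n).pow 2).sub ((hr n).pow 2))).div_const 8
      refine h3.congr_deriv ?_
      have h1 := hse n
      have h2 := hse (-n)
      simp only [Pi.sub_apply, Pi.pow_apply, Nat.cast_ofNat, Nat.add_one_sub_one, pow_one]
      linear_combination (-exp (prim s n) ^ 2 / 4) * h1 - (exp (prim s (-n)) ^ 2 / 4) * h2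
    have cr := dr.continuous
    have cr' := dr'.continuous
    have ce := de.continuous
    have ce' := de'.continuous
    have i1 : IntervalIntegrable (fun t : ℝ =>
        (exp (prim s t) ^ 2 * ee t + exp (prim s (-t)) ^ 2 * ee (-t)) / 4) volume (-1) 1 := by
      refine Continuous.intervalIntegrable ?_ _ _
      exact ((((cr.pow 2).mul ce).add ((cr'.pow 2).mul ce')).div_const 4).comp continuous_ofReal
    have hI1 : (∫ t in (-1 : ℝ)..1,
        (exp (prim s t) ^ 2 * ee t + exp (prim s (-t)) ^ 2 * ee (-t)) / 4) = 0 := by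
      rw [intervalIntegral.integral_eq_sub_of_hasDerivAt (fun t _ => (hG t).comp_ofReal) i1]
      simp
    -- the real part
    have hreal : ∀ t : ℝ, t ∈ Ioo (-1 : ℝ) 1 →
        prim s t + prim s (-t) = ((prim s t + prim s (-t)).re : ℂ) := by
      intro t ht
      have cs := hs.continuous
      have e1 : prim s t + prim s (-t) = ∫ σ in (0 : ℝ)..1,
          ((t * ((2 * (σ * t) - 2 * Real.sin (π * (σ * t) / 2)) / (1 - (σ * t) ^ 2)) : ℝ) : ℂ) := by
        unfold prim
        rw [← intervalIntegral.integral_add (Continuous.intervalIntegrable (by fun_prop) _ _)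
          (Continuous.intervalIntegrable (by fun_prop) _ _)]
        refine intervalIntegral.integral_congr fun σ hσ => ?_
        rw [uIcc_of_le zero_le_one] at hσ
        have hlt : (σ * t) ^ 2 < 1 := by
          have h1 : t ^ 2 < 1 := by nlinarith [ht.1, ht.2]
          have h2 : σ ^ 2 ≤ 1 := by nlinarith [hσ.1, hσ.2]
          nlinarith [sq_nonneg σ, sq_nonneg t]
        have hne : (1 - ((σ : ℂ) * t) ^ 2) ≠ 0 := by
          have : ((1 - (σ * t) ^ 2 : ℝ) : ℂ) ≠ 0 := ofReal_ne_zero.2 (by linarith)
          simpa using this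
        have h1 := hse (σ * t)
        have h2 := hse (-(σ * t))
        rw [ee_eq] at h1 h2
        have h3 : (π * -((σ : ℂ) * t) / 2) = -(π * (σ * t) / 2) := by ring
        rw [h3, Complex.sin_neg, Complex.cos_neg] at h2
        have h4 : (σ : ℂ) * -(t : ℂ) = -(σ * t) := by ring
        simp only [h4]
        push_cast
        rw [← mul_div_assoc, eq_div_iff hne]
        linear_combination t * h1 - t * h2
      rw [e1, intervalIntegral.integral_ofReal, ofReal_re]
    have cS : Continuous (prim s) := by
      have : Differentiable ℂ (prim s) := fun n => (hS n).differentiableAt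
      exact this.continuous
    have cg : Continuous fun t : ℝ =>
        Real.exp ((prim s t + prim s (-t)).re) * Real.cos (π * t / 2) := by
      fun_prop
    have hpos : 0 < ∫ t in (-1 : ℝ)..1,
        Real.exp ((prim s t + prim s (-t)).re) * Real.cos (π * t / 2) := by
      refine intervalIntegral.intervalIntegral_pos_of_pos_on (cg.intervalIntegrable _ _)
        (fun t ht => mul_pos (Real.exp_pos _) (Real.cos_pos_of_mem_Ioo ⟨?_, ?_⟩)) (by norm_num)
      · nlinarith [Real.pi_pos, ht.1]
      · nlinarith [Real.pi_pos, ht.2]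
    have hsplit : (∫ t in (-1 : ℝ)..1,
        (exp (prim s t) * ee t - exp (prim s (-t)) * ee (-t)) / 2 *
          ((exp (prim s t) - exp (prim s (-t))) / 2)) =
        (∫ t in (-1 : ℝ)..1,
          (exp (prim s t) ^ 2 * ee t + exp (prim s (-t)) ^ 2 * ee (-t)) / 4) +
        I / 2 * ∫ t in (-1 : ℝ)..1,
          ((Real.exp ((prim s t + prim s (-t)).re) * Real.cos (π * t / 2) : ℝ) : ℂ) := by
      rw [← intervalIntegral.integral_const_mul, ← intervalIntegral.integral_add i1
        (Continuous.intervalIntegrable (by fun_prop) _ _)]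
      refine intervalIntegral.integral_congr fun t ht => ?_
      rw [uIcc_of_le (by norm_num)] at ht
      have hcos : ee t + ee (-t) = -2 * I * cos (π * t / 2) := by
        rw [ee_eq, ee_eq]
        have h3 : (π * -(t : ℂ) / 2) = -(π * t / 2) := by ring
        rw [h3, Complex.sin_neg, Complex.cos_neg]
        ring
      have hmain : exp (prim s t) * exp (prim s (-t)) * cos (π * t / 2) =
          ((Real.exp ((prim s t + prim s (-t)).re) * Real.cos (π * t / 2) : ℝ) : ℂ) := by
        by_cases hm : t ∈ Ioo (-1 : ℝ) 1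
        · rw [← exp_add]
          push_cast
          rw [← hreal t hm]
        · have hc : Real.cos (π * t / 2) = 0 := by
            rcases eq_or_lt_of_le ht.1 with h | h
            · rw [← h]
              have : π * (-1) / 2 = -(π / 2) := by ring
              rw [this, Real.cos_neg, Real.cos_pi_div_two]
            · have h2 : t = 1 := le_antisymm ht.2 (not_lt.1 fun h' => hm ⟨h, h'⟩)
              rw [h2, mul_one, Real.cos_pi_div_two]
          have hc' : cos (π * t / 2 : ℂ) = 0 := by
            have := congrArg (fun x : ℝ => (x : ℂ)) hc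
            push_cast at this
            exact this
          rw [hc, hc']
          simp
      rw [← hmain]
      linear_combination (-exp (prim s t) * exp (prim s (-t)) / 4) * hcos
    simp only
    rw [hsplit, hI1, zero_add, intervalIntegral.integral_ofReal]
    exact mul_ne_zero (div_ne_zero I_ne_zero two_ne_zero) (ofReal_ne_zero.2 hpos.ne')

end Pool.Agent.Lib.MP_a2f1b8_an
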